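import Pool.Agent.helper66.PN.Key

set_option autoImplicit false

open Polynomial

namespace Pool.Agent.PN

/-- Value at `t` of the binary polynomial whose coefficients are the first 32 bits of `a`. -/
noncomputable def ev (t : Om) (a : ℕ) : Om :=
  ∑ i ∈ Finset.range 32, if a.testBit i then t ^ i else 0

theorem ev_zero (t : Om) : ev t 0 = 0 := by
  unfold ev
  simp

theorem ev_two_pow (t : Om) (i : ℕ) (hi : i < 32) : ev t (2 ^ i) = t ^ i := by
  unfold ev
  have : ∀ j ∈ Finset.range 32, (if (2 ^ i).testBit j then t ^ j else 0)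
      = if j = i then t ^ i else 0 := by
    intro j _
    rw [Nat.testBit_two_pow]
    by_cases h : i = j
    · subst h
      simp
    · simp [h, Ne.symm h]
  rw [Finset.sum_congr rfl this, Finset.sum_ite_eq' (Finset.range 32) i (fun _ => t ^ i)]
  simp [hi]

theorem ev_xor (t : Om) (a b : ℕ) : ev t (a ^^^ b) = ev t a + ev t b := by
  unfold ev
  rw [← Finset.sum_add_distrib]
  apply Finset.sum_congr rfl
  intro i _
  rw [Nat.testBit_xor]
  have h2 := two_eq
  cases a.testBit i <;> cases b.testBit i <;> simp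
  linear_combination (-t ^ i) * h2

theorem ev_double (t : Om) (a : ℕ) (ha : a < 2 ^ 31) : ev t (2 * a) = t * ev t a := by
  unfold ev
  rw [Finset.sum_range_succ' _ 31, Finset.sum_range_succ _ 31]
  have h0 : (2 * a).testBit 0 = false := by
    simp
  have h31 : a.testBit 31 = false := Nat.testBit_lt_two_pow ha
  rw [h0, h31]
  simp only [Bool.false_eq_true, if_false, add_zero]
  rw [Finset.mul_sum]
  apply Finset.sum_congr rfl
  intro i _
  have h : (2 * a).testBit (i + 1) = a.testBit i := by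
    rw [Nat.testBit_succ]
    congr 1
    omega
  rw [h]
  cases a.testBit i
  · simp
  · simp only [if_true]
    ring

/-- Multiplication by the variable modulo the polynomial `p` of degree `N`. -/
def xt (p N a : ℕ) : ℕ := if (2 * a).testBit N then (2 * a) ^^^ p else 2 * a

/-- Multiplication modulo the polynomial `p`. -/
def mulm (p N : ℕ) : ℕ → ℕ → ℕ → ℕ
  | 0, _, _ => 0
  | k + 1, a, b => (if b.testBit 0 then a else 0) ^^^ mulm p N k (xt p N a) (b / 2)

/-- Powers modulo the polynomial `p`. -/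
def pw (p N : ℕ) : ℕ → ℕ → ℕ
  | 0, _ => 1
  | f + 1, e =>
    if e % 2 = 1 then xt p N (mulm p N N (pw p N f (e / 2)) (pw p N f (e / 2)))
    else mulm p N N (pw p N f (e / 2)) (pw p N f (e / 2))

theorem xt_spec (t : Om) (p N a : ℕ) (hN : N ≤ 31) (hp : ev t p = 0) (ha : a < 2 ^ N) :
    ev t (xt p N a) = t * ev t a := by
  have h : a < 2 ^ 31 := lt_of_lt_of_le ha (Nat.pow_le_pow_right (by norm_num) hN)
  unfold xt
  by_cases hb : (2 * a).testBit N
  · rw [if_pos hb, ev_xor, hp, add_zero, ev_double t a h]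
  · rw [if_neg hb, ev_double t a h]

theorem lt_of_testBit_false (a N : ℕ) (ha : a < 2 ^ (N + 1)) (h : a.testBit N = false) :
    a < 2 ^ N := by
  apply Nat.lt_pow_two_of_testBit
  intro i hi
  rcases Nat.eq_or_lt_of_le hi with h1 | h1
  · rw [← h1]; exact h
  · apply Nat.testBit_lt_two_pow
    exact lt_of_lt_of_le ha (Nat.pow_le_pow_right (by norm_num) h1)

theorem xt_lt (p N a : ℕ) (hp : p < 2 ^ (N + 1)) (hpN : p.testBit N = true) (ha : a < 2 ^ N) :
    xt p N a < 2 ^ N := by
  have h2 : 2 * a < 2 ^ (N + 1) := by rw [pow_succ]; omega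
  unfold xt
  by_cases hb : (2 * a).testBit N
  · rw [if_pos hb]
    apply lt_of_testBit_false _ _ (Nat.xor_lt_two_pow h2 hp)
    rw [Nat.testBit_xor, hb, hpN]
    rfl
  · rw [if_neg hb]
    apply lt_of_testBit_false _ _ h2
    simpa using hb

theorem mulm_lt (p N : ℕ) (hp : p < 2 ^ (N + 1)) (hpN : p.testBit N = true) (k : ℕ) :
    ∀ a b : ℕ, a < 2 ^ N → mulm p N k a b < 2 ^ N := by
  induction k with
  | zero => intro a b _; unfold mulm; positivity
  | succ k ih =>
    intro a b ha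
    unfold mulm
    apply Nat.xor_lt_two_pow
    · split
      · exact ha
      · positivity
    · exact ih _ _ (xt_lt p N a hp hpN ha)

theorem mulm_spec (t : Om) (p N : ℕ) (hN : N ≤ 31) (hp : p < 2 ^ (N + 1))
    (hpN : p.testBit N = true) (hp0 : ev t p = 0) (k : ℕ) :
    ∀ a b : ℕ, a < 2 ^ N → b < 2 ^ k → k ≤ 31 → ev t (mulm p N k a b) = ev t a * ev t b := by
  induction k with
  | zero =>
    intro a b _ hb _
    have : b = 0 := by simpa using hb
    subst this
    unfold mulm
    rw [ev_zero]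
    ring
  | succ k ih =>
    intro a b ha hb hk
    have hb2 : b / 2 < 2 ^ k := by rw [pow_succ] at hb; omega
    unfold mulm
    rw [ev_xor, ih _ _ (xt_lt p N a hp hpN ha) hb2 (by omega), xt_spec t p N a hN hp0 ha]
    have hsplit : b = (if b.testBit 0 then 1 else 0) ^^^ (2 * (b / 2)) := by
      apply Nat.eq_of_testBit_eq
      intro i
      rw [Nat.testBit_xor]
      cases i with
      | zero =>
        cases b.testBit 0 <;> simp
      | succ i =>
        have h1 : (2 * (b / 2)).testBit (i + 1) = b.testBit (i + 1) := by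
          rw [Nat.testBit_succ, Nat.testBit_succ]
          congr 1
          omega
        rw [h1]
        have h3 : (if b.testBit 0 = true then 1 else 0 : ℕ).testBit (i + 1) = false := by
          split
          · rw [Nat.testBit_succ]; simp
          · simp
        rw [h3]
        simp
    have hev : ev t b = (if b.testBit 0 then 1 else 0) + t * ev t (b / 2) := by
      have h31 : b / 2 < 2 ^ 31 :=
        lt_of_lt_of_le hb2 (Nat.pow_le_pow_right (by norm_num) (by omega))
      have e0 : ev t (if b.testBit 0 = true then 1 else 0) = if b.testBit 0 = true then 1 else 0 := by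
        cases b.testBit 0
        · simp only [Bool.false_eq_true, if_false]
          exact ev_zero t
        · simp only [if_true]
          have := ev_two_pow t 0 (by norm_num)
          simpa using this
      have e1 : ev t b = ev t ((if b.testBit 0 = true then 1 else 0) ^^^ (2 * (b / 2))) := by
        rw [← hsplit]
      rw [e1, ev_xor t _ (2 * (b / 2)), ev_double t _ h31, e0]
    rw [hev]
    cases b.testBit 0
    · simp only [Bool.false_eq_true, if_false, ev_zero]
      ring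
    · simp only [if_true]
      ring

theorem pw_spec (t : Om) (p N : ℕ) (hN : N ≤ 31) (hN0 : 0 < N) (hp : p < 2 ^ (N + 1))
    (hpN : p.testBit N = true) (hp0 : ev t p = 0) (f : ℕ) :
    ∀ e : ℕ, e < 2 ^ f → pw p N f e < 2 ^ N ∧ ev t (pw p N f e) = t ^ e := by
  induction f with
  | zero =>
    intro e he
    have : e = 0 := by simpa using he
    subst this
    unfold pw
    refine ⟨Nat.one_lt_two_pow hN0.ne', ?_⟩
    have := ev_two_pow t 0 (by norm_num)
    simpa using this
  | succ f ih =>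
    intro e he
    have he2 : e / 2 < 2 ^ f := by rw [pow_succ] at he; omega
    obtain ⟨h1, h2⟩ := ih (e / 2) he2
    have h3 := mulm_lt p N hp hpN N (pw p N f (e / 2)) (pw p N f (e / 2)) h1
    have h4 := mulm_spec t p N hN hp hpN hp0 N (pw p N f (e / 2)) (pw p N f (e / 2)) h1 h1 hN
    rw [h2, ← pow_add] at h4
    unfold pw
    by_cases ho : e % 2 = 1
    · rw [if_pos ho]
      refine ⟨xt_lt p N _ hp hpN h3, ?_⟩
      rw [xt_spec t p N _ hN hp0 h3, h4, ← pow_succ']
      congr 1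
      omega
    · rw [if_neg ho]
      refine ⟨h3, ?_⟩
      rw [h4]
      congr 1
      omega

/-- If `t` is a root of a pentanomial then a suitable power is a root of a trinomial. -/
theorem check_root (N a b c K m : ℕ) (t : Om) (hN : N ≤ 31) (hN0 : 0 < N) (ha : a < N)
    (hb : b < N) (hc : c < N) (ht : t ^ N + t ^ a + t ^ b + t ^ c + 1 = 0)
    (hlt : 2 ^ N ^^^ (2 ^ a ^^^ (2 ^ b ^^^ (2 ^ c ^^^ 2 ^ 0))) < 2 ^ (N + 1))
    (htb : (2 ^ N ^^^ (2 ^ a ^^^ (2 ^ b ^^^ (2 ^ c ^^^ 2 ^ 0)))).testBit N = true)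
    (hm1 : m * N < 2 ^ 24) (hm2 : m * K < 2 ^ 24)
    (h : pw (2 ^ N ^^^ (2 ^ a ^^^ (2 ^ b ^^^ (2 ^ c ^^^ 2 ^ 0)))) N 24 (m * N) ^^^
      pw (2 ^ N ^^^ (2 ^ a ^^^ (2 ^ b ^^^ (2 ^ c ^^^ 2 ^ 0)))) N 24 (m * K) ^^^ 2 ^ 0 = 0) :
    (t ^ m) ^ N + (t ^ m) ^ K + 1 = 0 := by
  have hp0 : ev t (2 ^ N ^^^ (2 ^ a ^^^ (2 ^ b ^^^ (2 ^ c ^^^ 2 ^ 0)))) = 0 := by
    rw [ev_xor, ev_xor, ev_xor, ev_xor, ev_two_pow t N (by omega), ev_two_pow t a (by omega),
      ev_two_pow t b (by omega), ev_two_pow t c (by omega), ev_two_pow t 0 (by omega)]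
    linear_combination ht
  have h1 := (pw_spec t _ N hN hN0 hlt htb hp0 24 (m * N) hm1).2
  have h2 := (pw_spec t _ N hN hN0 hlt htb hp0 24 (m * K) hm2).2
  generalize pw (2 ^ N ^^^ (2 ^ a ^^^ (2 ^ b ^^^ (2 ^ c ^^^ 2 ^ 0)))) N 24 (m * N) = A at h h1
  generalize pw (2 ^ N ^^^ (2 ^ a ^^^ (2 ^ b ^^^ (2 ^ c ^^^ 2 ^ 0)))) N 24 (m * K) = B at h h2
  have h3 : ev t (A ^^^ B ^^^ 2 ^ 0) = ev t 0 := by rw [h]
  rw [ev_xor t (A ^^^ B) (2 ^ 0), ev_xor t A B, ev_zero, h1, h2, ev_two_pow t 0 (by omega)] at h3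
  rw [← pow_mul, ← pow_mul]
  simpa using h3

theorem root_6 (t : Om) (ht : t ^ 6 + t ^ 4 + t ^ 3 + t ^ 1 + 1 = 0) :
    (t ^ 7) ^ 6 + (t ^ 7) ^ 3 + 1 = 0 := by
  apply check_root 6 4 3 1 3 7 t (by norm_num) (by norm_num) (by norm_num) (by norm_num)
    (by norm_num) ht
  all_goals decide +kernel

theorem root_12_3 (t : Om) (ht : t ^ 12 + t ^ 9 + t ^ 6 + t ^ 2 + 1 = 0) :
    (t ^ 7) ^ 12 + (t ^ 7) ^ 3 + 1 = 0 := by
  apply check_root 12 9 6 2 3 7 t (by norm_num) (by norm_num) (by norm_num) (by norm_num)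
    (by norm_num) ht
  all_goals decide +kernel

theorem root_12_9 (t : Om) (ht : t ^ 12 + t ^ 4 + t ^ 2 + t ^ 1 + 1 = 0) :
    (t ^ 7) ^ 12 + (t ^ 7) ^ 9 + 1 = 0 := by
  apply check_root 12 4 2 1 9 7 t (by norm_num) (by norm_num) (by norm_num) (by norm_num)
    (by norm_num) ht
  all_goals decide +kernel

theorem root_21_7 (t : Om) (ht : t ^ 21 + t ^ 14 + t ^ 2 + t ^ 1 + 1 = 0) :
    (t ^ 42799) ^ 21 + (t ^ 42799) ^ 7 + 1 = 0 := by
  apply check_root 21 14 2 1 7 42799 t (by norm_num) (by norm_num) (by norm_num) (by norm_num)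
    (by norm_num) ht
  all_goals decide +kernel

theorem root_21_14 (t : Om) (ht : t ^ 21 + t ^ 5 + t ^ 2 + t ^ 1 + 1 = 0) :
    (t ^ 42799) ^ 21 + (t ^ 42799) ^ 14 + 1 = 0 := by
  apply check_root 21 5 2 1 14 42799 t (by norm_num) (by norm_num) (by norm_num) (by norm_num)
    (by norm_num) ht
  all_goals decide +kernel

end Pool.Agent.PN
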