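import Mathlib

set_option autoImplicit false

open Polynomial

namespace Pool.Agent.PN

/-- The algebraic closure of the field with two elements. -/
abbrev Om : Type := AlgebraicClosure (ZMod 2)

/-- The degree of an element over the base field. -/
noncomputable def dg (b : Om) : ℕ := (minpoly (ZMod 2) b).natDegree

/-- The conclusion: an irreducible pentanomial of degree `n` exists. -/
def HasPenta (n : ℕ) : Prop :=
  ∃ p : Polynomial (ZMod 2), p.natDegree = n ∧ p.support.card = 5 ∧ Irreducible p

theorem two_eq : (2 : Om) = 0 := CharTwo.two_eq_zero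

theorem integ (b : Om) : IsIntegral (ZMod 2) b :=
  (Algebra.IsAlgebraic.isAlgebraic (R := ZMod 2) b).isIntegral

theorem dg_pos (b : Om) : 0 < dg b := minpoly.natDegree_pos (integ b)

theorem dg_dvd_iff (b : Om) (m : ℕ) : dg b ∣ m ↔ b ^ (2 ^ m) = b := by
  unfold dg
  have h := (minpoly.irreducible (integ b)).natDegree_dvd_iff_dvd_X_pow_card_pow_sub_X (n := m)
  rw [h, minpoly.dvd_iff, Nat.card_zmod]
  simp [sub_eq_zero]

theorem dg_le (b : Om) (f : (ZMod 2)[X]) (hf : f ≠ 0) (h : aeval b f = 0) :
    dg b ≤ f.natDegree :=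
  Polynomial.natDegree_le_of_dvd (minpoly.dvd _ _ h) hf

theorem dg_irr (b : Om) (f : (ZMod 2)[X]) (hf : Irreducible f) (h : aeval b f = 0) :
    dg b = f.natDegree := by
  apply le_antisymm (dg_le b f hf.ne_zero h)
  have h1 : minpoly (ZMod 2) b ∣ f := minpoly.dvd _ _ h
  have h2 : f ∣ minpoly (ZMod 2) b := by
    have := (minpoly.irreducible (integ b)).associated_of_dvd hf h1
    exact this.symm.dvd
  exact Polynomial.natDegree_le_of_dvd h2 (minpoly.ne_zero (integ b))

theorem irr_of_dg (b : Om) (h : (ZMod 2)[X]) (hm : h.Monic) (h0 : aeval b h = 0)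
    (hd : dg b = h.natDegree) : Irreducible h := by
  have h1 : minpoly (ZMod 2) b ∣ h := minpoly.dvd _ _ h0
  have h2 : minpoly (ZMod 2) b = h :=
    (Polynomial.eq_of_monic_of_dvd_of_natDegree_le (minpoly.monic (integ b)) hm h1
      (by unfold dg at hd; rw [hd])).symm
  rw [← h2]
  exact minpoly.irreducible (integ b)

theorem dg_pow_dvd (b : Om) (m : ℕ) : dg (b ^ m) ∣ dg b := by
  rw [dg_dvd_iff, ← pow_mul, mul_comm, pow_mul, (dg_dvd_iff b (dg b)).1 dvd_rfl]

theorem dg_le_mul (b : Om) (d : ℕ) (hd : 0 < d) : dg b ≤ d * dg (b ^ d) := by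
  have h : aeval b (expand (ZMod 2) d (minpoly (ZMod 2) (b ^ d))) = 0 := by
    rw [expand_aeval, minpoly.aeval]
  have h0 : expand (ZMod 2) d (minpoly (ZMod 2) (b ^ d)) ≠ 0 := by
    rw [Ne, expand_eq_zero hd]
    exact minpoly.ne_zero (integ _)
  have := dg_le b _ h0 h
  rwa [natDegree_expand, mul_comm] at this

/-- Polynomials over the two element field given by their set of exponents. -/
noncomputable def PS (S : Finset ℕ) : (ZMod 2)[X] := ∑ i ∈ S, X ^ i

theorem PS_coeff (S : Finset ℕ) (j : ℕ) : (PS S).coeff j = if j ∈ S then 1 else 0 := by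
  unfold PS
  rw [finsetSum_coeff]
  simp [coeff_X_pow]

theorem PS_support (S : Finset ℕ) : (PS S).support = S := by
  ext j
  rw [mem_support_iff, PS_coeff]
  by_cases h : j ∈ S <;> simp [h]

theorem PS_natDegree (S : Finset ℕ) (n : ℕ) (hn : n ∈ S) (hle : ∀ i ∈ S, i ≤ n) :
    (PS S).natDegree = n := by
  apply natDegree_eq_of_le_of_coeff_ne_zero
  · rw [natDegree_le_iff_coeff_eq_zero]
    intro j hj
    rw [PS_coeff, if_neg]
    intro h
    exact absurd (hle j h) (by omega)
  · rw [PS_coeff, if_pos hn]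
    exact one_ne_zero

theorem PS_monic (S : Finset ℕ) (n : ℕ) (hn : n ∈ S) (hle : ∀ i ∈ S, i ≤ n) :
    (PS S).Monic := by
  rw [Monic, leadingCoeff, PS_natDegree S n hn hle, PS_coeff, if_pos hn]

theorem PS_aeval (S : Finset ℕ) (b : Om) : aeval b (PS S) = ∑ i ∈ S, b ^ i := by
  unfold PS
  simp

theorem eq_PS (q : (ZMod 2)[X]) : q = PS q.support := by
  ext j
  rw [PS_coeff]
  by_cases h : j ∈ q.support
  · rw [if_pos h]
    rw [mem_support_iff] at h
    generalize q.coeff j = c at h
    revert h
    revert c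
    decide
  · rw [if_neg h]
    rwa [notMem_support_iff] at h

theorem goal_of (n a b c : ℕ) (x : Om) (h : dg x = n) (ha0 : 0 < a) (hb0 : 0 < b) (hc0 : 0 < c)
    (han : a < n) (hbn : b < n) (hcn : c < n) (hab : a ≠ b) (hac : a ≠ c) (hbc : b ≠ c)
    (hs : x ^ n + x ^ a + x ^ b + x ^ c + 1 = 0) : HasPenta n := by
  have hS : ∀ i ∈ ({n, a, b, c, 0} : Finset ℕ), i ≤ n := by
    intro i hi
    simp only [Finset.mem_insert, Finset.mem_singleton] at hi
    omega
  have hnS : n ∈ ({n, a, b, c, 0} : Finset ℕ) := by simp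
  have hsum : ∀ y : Om, ∑ i ∈ ({n, a, b, c, 0} : Finset ℕ), y ^ i
      = y ^ n + y ^ a + y ^ b + y ^ c + 1 := by
    intro y
    rw [Finset.sum_insert, Finset.sum_insert, Finset.sum_insert, Finset.sum_insert,
      Finset.sum_singleton]
    · ring
    · simp only [Finset.mem_singleton]; omega
    · simp only [Finset.mem_insert, Finset.mem_singleton]; omega
    · simp only [Finset.mem_insert, Finset.mem_singleton]; omega
    · simp only [Finset.mem_insert, Finset.mem_singleton]; omega
  have hcard : ({n, a, b, c, 0} : Finset ℕ).card = 5 := by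
    rw [Finset.card_insert_of_notMem, Finset.card_insert_of_notMem, Finset.card_insert_of_notMem,
      Finset.card_insert_of_notMem, Finset.card_singleton]
    · simp only [Finset.mem_singleton]; omega
    · simp only [Finset.mem_insert, Finset.mem_singleton]; omega
    · simp only [Finset.mem_insert, Finset.mem_singleton]; omega
    · simp only [Finset.mem_insert, Finset.mem_singleton]; omega
  refine ⟨PS {n, a, b, c, 0}, PS_natDegree _ n hnS hS, ?_, ?_⟩
  · rw [PS_support, hcard]
  · apply irr_of_dg x _ (PS_monic _ n hnS hS)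
    · rw [PS_aeval, hsum, hs]
    · rw [PS_natDegree _ n hnS hS, h]

/-- The trinomial `X^n + X^k + 1`. -/
noncomputable def tri (n k : ℕ) : (ZMod 2)[X] := X ^ n + X ^ k + 1

theorem tri_eq (n k : ℕ) (hk : 0 < k) (hkn : k < n) : tri n k = PS {n, k, 0} := by
  unfold tri PS
  rw [Finset.sum_insert, Finset.sum_insert, Finset.sum_singleton]
  · ring
  · simp only [Finset.mem_singleton]; omega
  · simp only [Finset.mem_insert, Finset.mem_singleton]; omega

theorem tri_natDegree (n k : ℕ) (hk : 0 < k) (hkn : k < n) : (tri n k).natDegree = n := by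
  rw [tri_eq n k hk hkn]
  apply PS_natDegree
  · simp
  · intro i hi
    simp only [Finset.mem_insert, Finset.mem_singleton] at hi
    omega

theorem tri_aeval (n k : ℕ) (b : Om) : aeval b (tri n k) = b ^ n + b ^ k + 1 := by
  unfold tri
  simp

theorem tri_dg (n k : ℕ) (hk : 0 < k) (hkn : k < n) (hf : Irreducible (tri n k)) (b : Om)
    (hb : b ^ n + b ^ k + 1 = 0) : dg b = n := by
  rw [dg_irr b _ hf (by rw [tri_aeval, hb]), tri_natDegree n k hk hkn]

theorem tri_root (n k : ℕ) (hk : 0 < k) (hkn : k < n) : ∃ b : Om, b ^ n + b ^ k + 1 = 0 := by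
  have hd : (tri n k).degree ≠ 0 := by
    rw [degree_eq_natDegree, tri_natDegree n k hk hkn]
    · intro h
      have : n = 0 := by exact_mod_cast h
      omega
    · intro h0
      have := tri_natDegree n k hk hkn
      rw [h0, natDegree_zero] at this
      omega
  obtain ⟨b, hb⟩ := IsAlgClosed.exists_aeval_eq_zero Om (tri n k) hd
  exact ⟨b, by rw [← tri_aeval, hb]⟩

end Pool.Agent.PN
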