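import Pool.Agent.helper66.PN.Steps
import Pool.Agent.helper66.PN.Bits

set_option autoImplicit false

open Polynomial

namespace Pool.Agent.PN

theorem penta_root (n a b c : ℕ) (hc : 0 < c) (hcb : c < b) (hba : b < a) (han : a < n) :
    ∃ t : Om, t ^ n + t ^ a + t ^ b + t ^ c + 1 = 0 ∧ dg t ≤ n := by
  have hS : ∀ i ∈ ({n, a, b, c, 0} : Finset ℕ), i ≤ n := by
    intro i hi
    simp only [Finset.mem_insert, Finset.mem_singleton] at hi
    omega
  have hnS : n ∈ ({n, a, b, c, 0} : Finset ℕ) := by simp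
  have hsum : ∀ y : Om, ∑ i ∈ ({n, a, b, c, 0} : Finset ℕ), y ^ i
      = y ^ n + y ^ a + y ^ b + y ^ c + 1 := by
    intro y
    rw [Finset.sum_insert, Finset.sum_insert, Finset.sum_insert, Finset.sum_insert,
      Finset.sum_singleton]
    · ring
    · simp only [Finset.mem_singleton]; omega
    · simp only [Finset.mem_insert, Finset.mem_singleton]; omega
    · simp only [Finset.mem_insert, Finset.mem_singleton]; omega
    · simp only [Finset.mem_insert, Finset.mem_singleton]; omega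
  have hnd := PS_natDegree _ n hnS hS
  have hne : PS {n, a, b, c, 0} ≠ 0 := by
    intro h0
    rw [h0, natDegree_zero] at hnd
    omega
  have hd : (PS {n, a, b, c, 0}).degree ≠ 0 := by
    rw [degree_eq_natDegree hne, hnd]
    intro h
    have : n = 0 := by exact_mod_cast h
    omega
  obtain ⟨t, ht⟩ := IsAlgClosed.exists_aeval_eq_zero Om (PS {n, a, b, c, 0}) hd
  refine ⟨t, ?_, ?_⟩
  · rw [← hsum, ← PS_aeval, ht]
  · have := dg_le t _ hne ht
    rwa [hnd] at this

theorem comp (N K a b c e m : ℕ) (he : 0 < e) (hK : 0 < K) (hKN : K < N) (hc : 0 < c)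
    (hcb : c < b) (hba : b < a) (han : a < N)
    (hroot : ∀ t : Om, t ^ N + t ^ a + t ^ b + t ^ c + 1 = 0 →
      (t ^ m) ^ N + (t ^ m) ^ K + 1 = 0)
    (hirr : Irreducible (tri (N * e) (K * e))) : HasPenta (N * e) := by
  obtain ⟨t, ht, htd⟩ := penta_root (N * e) (a * e) (b * e) (c * e) (Nat.mul_pos hc he)
    (Nat.mul_lt_mul_of_pos_right hcb he) (Nat.mul_lt_mul_of_pos_right hba he)
    (Nat.mul_lt_mul_of_pos_right han he)
  have h1 : (t ^ e) ^ N + (t ^ e) ^ a + (t ^ e) ^ b + (t ^ e) ^ c + 1 = 0 := by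
    rw [← ht, ← pow_mul, ← pow_mul, ← pow_mul, ← pow_mul, mul_comm e N, mul_comm e a,
      mul_comm e b, mul_comm e c]
  have h2 := hroot (t ^ e) h1
  have h3 : (t ^ m) ^ (N * e) + (t ^ m) ^ (K * e) + 1 = 0 := by
    rw [← h2, ← pow_mul, ← pow_mul, ← pow_mul, ← pow_mul, ← pow_mul, ← pow_mul]
    congr 3 <;> ring
  have h4 := tri_dg (N * e) (K * e) (Nat.mul_pos hK he) (Nat.mul_lt_mul_of_pos_right hKN he)
    hirr (t ^ m) h3
  have h5 : N * e ≤ dg t := by
    rw [← h4]
    exact Nat.le_of_dvd (dg_pos t) (dg_pow_dvd t m)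
  have h6 : dg t = N * e := le_antisymm htd h5
  have p1 := Nat.mul_pos hc he
  have p2 := Nat.mul_lt_mul_of_pos_right hcb he
  have p3 := Nat.mul_lt_mul_of_pos_right hba he
  have p4 := Nat.mul_lt_mul_of_pos_right han he
  exact goal_of (N * e) (a * e) (b * e) (c * e) t h6 (by omega) (by omega) (by omega)
    (by omega) (by omega) (by omega) (by omega) (by omega) (by omega) ht

theorem fam2 (d : ℕ) (hd : 2 ≤ d) (hf : Irreducible (tri (2 * d) d)) : HasPenta (2 * d) := by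
  by_cases h3 : d % 3 = 0
  · obtain ⟨e, rfl⟩ : ∃ e, d = 3 * e := ⟨d / 3, by omega⟩
    have e1 : 2 * (3 * e) = 6 * e := by ring
    rw [e1] at hf ⊢
    exact comp 6 3 4 3 1 e 7 (by omega) (by norm_num) (by norm_num) (by norm_num) (by norm_num)
      (by norm_num) (by norm_num) root_6 hf
  · exfalso
    obtain ⟨z, hz, hz3, hz1⟩ := exists_omega
    have hp : Nat.Prime 3 := by norm_num
    have e1 : (z ^ d) ^ d = z := by
      rw [← pow_mul]
      have e2 : z ^ (d * d) = z ^ 1 := by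
        rw [z_pow_eq 3 hp z hz1 hz3]
        have : d % 3 = 1 ∨ d % 3 = 2 := by omega
        rcases this with h | h <;> simp [Nat.mul_mod, h]
      rw [e2, pow_one]
    have e2 : (z ^ d) ^ (2 * d) + (z ^ d) ^ d + 1 = 0 := by
      rw [mul_comm 2 d, pow_mul, e1, hz]
    have h4 := tri_dg (2 * d) d (by omega) (by omega) hf _ e2
    have h5 := dg_omega (z ^ d) (by rw [pow_right_comm, hz3, one_pow])
    omega

theorem dg_seven (z : Om) (hz : z ^ 7 = 1) : dg z ≤ 3 := by
  apply Nat.le_of_dvd (by norm_num)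
  rw [dg_dvd_iff]
  calc z ^ 2 ^ 3 = z ^ 7 * z := by ring
    _ = z := by rw [hz]; ring

theorem pow_six_mod (d : ℕ) (h : d % 7 ≠ 0) : (d ^ 5 * d) % 7 = 1 := by
  have h1 : d % 7 < 7 := Nat.mod_lt _ (by norm_num)
  have : d % 7 = 1 ∨ d % 7 = 2 ∨ d % 7 = 3 ∨ d % 7 = 4 ∨ d % 7 = 5 ∨ d % 7 = 6 := by omega
  rcases this with h | h | h | h | h | h <;> simp [Nat.mul_mod, Nat.pow_mod, h]

theorem fam3 (d : ℕ) (hd : 2 ≤ d) (hf : Irreducible (tri (3 * d) d)) : HasPenta (3 * d) := by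
  by_cases h3 : d % 7 = 0
  · obtain ⟨e, rfl⟩ : ∃ e, d = 7 * e := ⟨d / 7, by omega⟩
    have e1 : 3 * (7 * e) = 21 * e := by ring
    rw [e1] at hf ⊢
    exact comp 21 7 14 2 1 e 42799 (by omega) (by norm_num) (by norm_num) (by norm_num)
      (by norm_num) (by norm_num) (by norm_num) root_21_7 hf
  · exfalso
    have h2 := two_eq
    obtain ⟨z, hz⟩ := tri_root 3 1 (by norm_num) (by norm_num)
    have hz7 : z ^ 7 = 1 := by
      linear_combination (z ^ 4 - z ^ 2 - z + 1) * hz + (z ^ 2 - 1) * h2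
    have hz1 : z ≠ 1 := by
      intro h
      rw [h] at hz
      have : (1 : Om) = 0 := by linear_combination hz - h2
      exact one_ne_zero this
    have hp : Nat.Prime 7 := by norm_num
    have e1 : (z ^ (d ^ 5)) ^ d = z := by
      rw [← pow_mul]
      have e2 : z ^ (d ^ 5 * d) = z ^ 1 := by
        rw [z_pow_eq 7 hp z hz1 hz7]
        exact pow_six_mod d h3
      rw [e2, pow_one]
    have e2 : (z ^ (d ^ 5)) ^ (3 * d) + (z ^ (d ^ 5)) ^ d + 1 = 0 := by
      rw [mul_comm 3 d, pow_mul, e1]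
      linear_combination hz
    have h4 := tri_dg (3 * d) d (by omega) (by omega) hf _ e2
    have h5 := dg_seven (z ^ (d ^ 5)) (by rw [pow_right_comm, hz7, one_pow])
    omega

theorem fam3' (d : ℕ) (hd : 2 ≤ d) (hf : Irreducible (tri (3 * d) (2 * d))) :
    HasPenta (3 * d) := by
  by_cases h3 : d % 7 = 0
  · obtain ⟨e, rfl⟩ : ∃ e, d = 7 * e := ⟨d / 7, by omega⟩
    have e1 : 3 * (7 * e) = 21 * e := by ring
    have e2 : 2 * (7 * e) = 14 * e := by ring
    rw [e1, e2] at hf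
    rw [e1]
    exact comp 21 14 5 2 1 e 42799 (by omega) (by norm_num) (by norm_num) (by norm_num)
      (by norm_num) (by norm_num) (by norm_num) root_21_14 hf
  · exfalso
    have h2 := two_eq
    obtain ⟨z, hz⟩ := tri_root 3 2 (by norm_num) (by norm_num)
    have hz7 : z ^ 7 = 1 := by
      linear_combination (z ^ 4 - z ^ 3 + z ^ 2 + 1) * hz - (z ^ 4 + z ^ 2 + 1) * h2
    have hz1 : z ≠ 1 := by
      intro h
      rw [h] at hz
      have : (1 : Om) = 0 := by linear_combination hz - h2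
      exact one_ne_zero this
    have hp : Nat.Prime 7 := by norm_num
    have e1 : (z ^ (d ^ 5)) ^ d = z := by
      rw [← pow_mul]
      have e2 : z ^ (d ^ 5 * d) = z ^ 1 := by
        rw [z_pow_eq 7 hp z hz1 hz7]
        exact pow_six_mod d h3
      rw [e2, pow_one]
    have e2 : (z ^ (d ^ 5)) ^ (3 * d) + (z ^ (d ^ 5)) ^ (2 * d) + 1 = 0 := by
      rw [mul_comm 3 d, mul_comm 2 d, pow_mul, pow_mul, e1]
      linear_combination hz
    have h4 := tri_dg (3 * d) (2 * d) (by omega) (by omega) hf _ e2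
    have h5 := dg_seven (z ^ (d ^ 5)) (by rw [pow_right_comm, hz7, one_pow])
    omega

theorem fam4 (e : ℕ) (he : 0 < e) (hf : Irreducible (tri (12 * e) (3 * e))) :
    HasPenta (12 * e) :=
  comp 12 3 9 6 2 e 7 he (by norm_num) (by norm_num) (by norm_num)
    (by norm_num) (by norm_num) (by norm_num) root_12_3 hf

theorem fam4' (e : ℕ) (he : 0 < e) (hf : Irreducible (tri (12 * e) (9 * e))) :
    HasPenta (12 * e) :=
  comp 12 9 4 2 1 e 7 he (by norm_num) (by norm_num) (by norm_num)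
    (by norm_num) (by norm_num) (by norm_num) root_12_9 hf

/-- Small quotients by the greatest common divisor. -/
theorem gcd_cases (n k : ℕ) (hk : 0 < k) (hkn : k < n) (h : n ≤ 4 * Nat.gcd n k) :
    n = 2 * k ∨ n = 3 * k ∨ 2 * n = 3 * k ∨ n = 4 * k ∨ 3 * n = 4 * k := by
  obtain ⟨a, ha⟩ := Nat.gcd_dvd_left n k
  obtain ⟨b, hb⟩ := Nat.gcd_dvd_right n k
  have hg : 0 < Nat.gcd n k := Nat.gcd_pos_of_pos_right n hk
  generalize Nat.gcd n k = g at *
  subst ha
  subst hb
  have h1 : a ≤ 4 := by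
    by_contra h5
    have : g * 5 ≤ g * a := Nat.mul_le_mul_left g (by omega)
    omega
  have h2 : b < a := lt_of_mul_lt_mul_left hkn (by omega)
  have h3 : 0 < b := pos_of_mul_pos_right hk (by omega)
  interval_cases a <;> interval_cases b <;> omega

/-- An irreducible trinomial gives an irreducible pentanomial. -/
theorem tri_penta (n k : ℕ) (hk : 0 < k) (hkn : k < n) (hn : 4 ≤ n)
    (hf : Irreducible (tri n k)) (h15 : ¬ (n % 15 = 0 ∧ k % 15 = 0)) : HasPenta n := by
  by_cases c2 : n = 2 * k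
  · subst c2
    exact fam2 k (by omega) hf
  by_cases c3 : n = 3 * k
  · subst c3
    exact fam3 k (by omega) hf
  by_cases c32 : 2 * n = 3 * k
  · obtain ⟨d, hd1, hd2⟩ : ∃ d, n = 3 * d ∧ k = 2 * d := ⟨n / 3, by omega, by omega⟩
    subst hd1
    subst hd2
    exact fam3' d (by omega) hf
  by_cases h3 : n % 3 = 0 ∧ k % 3 = 0
  · by_cases c4 : n = 4 * k
    · obtain ⟨e, he⟩ : ∃ e, k = 3 * e := ⟨k / 3, by omega⟩
      have e1 : n = 12 * e := by omega
      subst e1
      subst he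
      exact fam4 e (by omega) hf
    by_cases c43 : 3 * n = 4 * k
    · obtain ⟨e, he⟩ : ∃ e, n = 12 * e := ⟨n / 12, by omega⟩
      have e1 : k = 9 * e := by omega
      subst e1
      subst he
      exact fam4' e (by omega) hf
    have hbig : 4 * Nat.gcd n k < n := by
      by_contra hcon
      rcases gcd_cases n k hk hkn (by omega) with h | h | h | h | h <;> contradiction
    exact step5 n k hk hkn hf (by omega) hbig c2 c3 c32 c4 c43
  · exact step3 n k hk hkn hn hf h3 c3 c32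

theorem two_pow_mod5 (m : ℕ) (h : (2 ^ m) % 5 = 1) : 4 ∣ m := by
  have h1 : m % 4 < 4 := Nat.mod_lt _ (by norm_num)
  have h2 : m = 4 * (m / 4) + m % 4 := by omega
  have h3 : (2 ^ m) % 5 = (2 ^ (m % 4)) % 5 := by
    conv_lhs => rw [h2, pow_add, pow_mul]
    rw [Nat.mul_mod, Nat.pow_mod]
    simp
  rw [h3] at h
  have h4 : m % 4 = 0 ∨ m % 4 = 1 ∨ m % 4 = 2 ∨ m % 4 = 3 := by omega
  rcases h4 with h4 | h4 | h4 | h4
  · omega
  all_goals
    rw [h4] at h
    norm_num at h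

/-- If both exponents of an irreducible trinomial are multiples of five, then the degree is a
multiple of four. -/
theorem four_dvd (n k : ℕ) (hk : 0 < k) (hkn : k < n) (hf : Irreducible (tri n k))
    (hn5 : n % 5 = 0) (hk5 : k % 5 = 0) : 4 ∣ n := by
  obtain ⟨x, hx⟩ := tri_root n k hk hkn
  have hx0 := root_ne_zero n k hk hkn x hx
  have hdn := tri_dg n k hk hkn hf x hx
  obtain ⟨a, rfl⟩ : ∃ a, n = 5 * a := ⟨n / 5, by omega⟩
  obtain ⟨b, rfl⟩ : ∃ b, k = 5 * b := ⟨k / 5, by omega⟩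
  have hy : (x ^ 5) ^ a + (x ^ 5) ^ b + 1 = 0 := by
    rw [← pow_mul, ← pow_mul, hx]
  have hdy : dg (x ^ 5) ≤ a := by
    have h1 := dg_le (x ^ 5) (tri a b) (by
      intro h0
      have := tri_natDegree a b (by omega) (by omega)
      rw [h0, natDegree_zero] at this
      omega) (by rw [tri_aeval, hy])
    rwa [tri_natDegree a b (by omega) (by omega)] at h1
  have hdvd : dg (x ^ 5) ∣ 5 * a := by rw [← hdn]; exact dg_pow_dvd x 5
  have hpos := dg_pos (x ^ 5)
  have hfix := (dg_dvd_iff (x ^ 5) (dg (x ^ 5))).1 dvd_rfl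
  generalize dg (x ^ 5) = m at *
  by_cases hq : (2 ^ m) % 5 = 1
  · exact (two_pow_mod5 m hq).trans hdvd
  · exfalso
    have hq0 : (2 ^ m) % 5 ≠ 0 := by
      intro h
      have h5 : 5 ∣ 2 ^ m := Nat.dvd_of_mod_eq_zero h
      have := (Nat.prime_five).dvd_of_dvd_pow h5
      omega
    have hz5 : (x ^ (2 ^ m) / x) ^ 5 = 1 := by
      rw [div_pow, pow_right_comm, hfix, div_self (pow_ne_zero _ hx0)]
    obtain ⟨z, hz⟩ : ∃ z, z = x ^ (2 ^ m) / x := ⟨_, rfl⟩
    rw [← hz] at hz5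
    have hxq : x ^ (2 ^ m) = z * x := by rw [hz, div_mul_cancel₀ _ hx0]
    have hsum : (1 + 2 ^ m + (2 ^ m) ^ 2 + (2 ^ m) ^ 3) % 5 = 0 := by
      have h1 : (2 ^ m) % 5 < 5 := Nat.mod_lt _ (by norm_num)
      have h2 : (2 ^ m) % 5 = 2 ∨ (2 ^ m) % 5 = 3 ∨ (2 ^ m) % 5 = 4 := by omega
      generalize 2 ^ m = q at *
      rcases h2 with h | h | h <;> simp [Nat.add_mod, Nat.pow_mod, h]
    have hfix4 : x ^ (2 ^ (4 * m)) = x := by
      have e1 : (2 : ℕ) ^ (4 * m) = 2 ^ m * 2 ^ m * 2 ^ m * 2 ^ m := by ring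
      rw [e1, pow_mul, pow_mul, pow_mul, hxq]
      generalize 2 ^ m = q at *
      obtain ⟨c, hc⟩ : ∃ c, 1 + q + q ^ 2 + q ^ 3 = 5 * c := ⟨(1 + q + q ^ 2 + q ^ 3) / 5, by omega⟩
      have e2 : (((z * x) ^ q) ^ q) ^ q = z ^ (1 + q + q ^ 2 + q ^ 3) * x := by
        have e3 : (z * x) ^ q = z ^ (1 + q) * x := by
          rw [mul_pow, hxq, pow_add, pow_one]; ring
        have e4 : (z ^ (1 + q) * x) ^ q = z ^ (1 + q + q ^ 2) * x := by
          rw [mul_pow, hxq, ← pow_mul, ← mul_assoc, ← pow_succ]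
          congr 2; ring
        have e5 : (z ^ (1 + q + q ^ 2) * x) ^ q = z ^ (1 + q + q ^ 2 + q ^ 3) * x := by
          rw [mul_pow, hxq, ← pow_mul, ← mul_assoc, ← pow_succ]
          congr 2; ring
        rw [e3, e4, e5]
      rw [e2, hc, pow_mul, hz5, one_pow, one_mul]
    have h6 : dg x ∣ 4 * m := (dg_dvd_iff _ _).2 hfix4
    have h7 := Nat.le_of_dvd (by omega) h6
    omega

end Pool.Agent.PN
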