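import Pool.Agent.helper66.PN.Core

set_option autoImplicit false

open Polynomial

namespace Pool.Agent.PN

theorem frob_tri (m n k : ℕ) (x : Om) (h : x ^ n + x ^ k + 1 = 0) :
    (x ^ (2 ^ m)) ^ n + (x ^ (2 ^ m)) ^ k + 1 = 0 := by
  have h1 : iterateFrobenius Om 2 m (x ^ n + x ^ k + 1) = 0 := by rw [h, map_zero]
  rw [map_add, map_add, map_one, map_pow, map_pow, iterateFrobenius_def] at h1
  exact h1

theorem root_ne_zero (n k : ℕ) (hk : 0 < k) (hkn : k < n) (x : Om)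
    (h : x ^ n + x ^ k + 1 = 0) : x ≠ 0 := by
  intro h0
  rw [h0, zero_pow (by omega), zero_pow hk.ne'] at h
  simp at h

/-- The degree of a power of a root of a trinomial. -/
theorem key (n k r : ℕ) (hk : 0 < k) (hkn : k < n) (x : Om) (h : x ^ n + x ^ k + 1 = 0) :
    dg (x ^ r) = dg x ∨ ∃ z : Om, z ≠ 1 ∧ z ^ r = 1 ∧ (z * x) ^ n + (z * x) ^ k + 1 = 0 := by
  have hx : x ≠ 0 := root_ne_zero n k hk hkn x h
  have h1 : (x ^ r) ^ (2 ^ dg (x ^ r)) = x ^ r := (dg_dvd_iff _ _).1 dvd_rfl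
  by_cases hz : x ^ (2 ^ dg (x ^ r)) = x
  · left
    apply Nat.dvd_antisymm (dg_pow_dvd x r)
    exact (dg_dvd_iff _ _).2 hz
  · right
    refine ⟨x ^ (2 ^ dg (x ^ r)) / x, ?_, ?_, ?_⟩
    · intro h2
      rw [div_eq_one_iff_eq hx] at h2
      exact hz h2
    · rw [div_pow, ← pow_mul, mul_comm, pow_mul, h1, div_self (pow_ne_zero _ hx)]
    · rw [div_mul_cancel₀ _ hx]
      exact frob_tri _ _ _ _ h

theorem z_pow_one (r : ℕ) (hr : r.Prime) (z : Om) (hz : z ≠ 1) (hzr : z ^ r = 1) (a : ℕ) :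
    z ^ a = 1 ↔ r ∣ a := by
  have : Fact r.Prime := ⟨hr⟩
  rw [← orderOf_dvd_iff_pow_eq_one, orderOf_eq_prime hzr hz]

theorem z_pow_eq (r : ℕ) (hr : r.Prime) (z : Om) (hz : z ≠ 1) (hzr : z ^ r = 1) (a b : ℕ) :
    z ^ a = z ^ b ↔ a % r = b % r := by
  have hz0 : z ≠ 0 := by
    intro h
    rw [h, zero_pow hr.ne_zero] at hzr
    exact zero_ne_one hzr
  have key : ∀ a b : ℕ, a ≤ b → (z ^ a = z ^ b ↔ a % r = b % r) := by
    intro a b hab
    obtain ⟨c, rfl⟩ := Nat.exists_eq_add_of_le hab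
    rw [pow_add]
    have h1 : z ^ a = z ^ a * z ^ c ↔ z ^ c = 1 := by
      constructor
      · intro h
        have h2 : z ^ a * 1 = z ^ a * z ^ c := by rw [mul_one]; exact h
        exact (mul_left_cancel₀ (pow_ne_zero _ hz0) h2).symm
      · intro h
        rw [h, mul_one]
    rw [h1, z_pow_one r hr z hz hzr]
    constructor
    · intro h
      obtain ⟨d, rfl⟩ := h
      rw [Nat.add_mul_mod_self_left]
    · intro h
      have : a ≡ a + c [MOD r] := h
      have h3 := (Nat.modEq_iff_dvd' (by omega)).1 this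
      simpa using h3
  rcases le_total a b with h | h
  · exact key a b h
  · rw [eq_comm, key b a h, eq_comm]

theorem no_z (n k r : ℕ) (hr : r.Prime) (x z : Om) (hx0 : x ≠ 0)
    (hx : x ^ n + x ^ k + 1 = 0) (hz : z ≠ 1) (hzr : z ^ r = 1)
    (h : (z * x) ^ n + (z * x) ^ k + 1 = 0)
    (hp : (n % r = k % r ∧ n % r ≠ 0) ∨ (n % r = 0 ∧ k % r ≠ 0) ∨ (k % r = 0 ∧ n % r ≠ 0)) :
    False := by
  have h2 := two_eq
  rw [mul_pow, mul_pow] at h
  rcases hp with ⟨h1, h3⟩ | ⟨h1, h3⟩ | ⟨h1, h3⟩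
  · have e : z ^ n = z ^ k := (z_pow_eq r hr z hz hzr n k).2 h1
    rw [← e] at h
    have : z ^ n = 1 := by linear_combination h - z ^ n * hx + (z ^ n - 1) * h2
    rw [z_pow_one r hr z hz hzr] at this
    exact h3 (Nat.mod_eq_zero_of_dvd this)
  · have e : z ^ n = 1 := (z_pow_one r hr z hz hzr n).2 (Nat.dvd_of_mod_eq_zero h1)
    rw [e] at h
    have h4 : x ^ k * (z ^ k - 1) = 0 := by linear_combination h - hx
    rcases mul_eq_zero.1 h4 with h5 | h5
    · exact pow_ne_zero _ hx0 h5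
    · have : z ^ k = 1 := by linear_combination h5
      rw [z_pow_one r hr z hz hzr] at this
      exact h3 (Nat.mod_eq_zero_of_dvd this)
  · have e : z ^ k = 1 := (z_pow_one r hr z hz hzr k).2 (Nat.dvd_of_mod_eq_zero h1)
    rw [e] at h
    have h4 : x ^ n * (z ^ n - 1) = 0 := by linear_combination h - hx
    rcases mul_eq_zero.1 h4 with h5 | h5
    · exact pow_ne_zero _ hx0 h5
    · have : z ^ n = 1 := by linear_combination h5
      rw [z_pow_one r hr z hz hzr] at this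
      exact h3 (Nat.mod_eq_zero_of_dvd this)

/-- In the two equal residue case the power has full degree. -/
theorem dg_two_equal (n k r : ℕ) (hr : r.Prime) (hk : 0 < k) (hkn : k < n)
    (hf : Irreducible (tri n k)) (x : Om) (hx : x ^ n + x ^ k + 1 = 0)
    (hp : (n % r = k % r ∧ n % r ≠ 0) ∨ (n % r = 0 ∧ k % r ≠ 0) ∨ (k % r = 0 ∧ n % r ≠ 0)) :
    dg (x ^ r) = n := by
  rcases key n k r hk hkn x hx with h | ⟨z, hz, hzr, h⟩
  · rw [h, tri_dg n k hk hkn hf x hx]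
  · exact absurd (no_z n k r hr x z (root_ne_zero n k hk hkn x hx) hx hz hzr h hp) (fun h => h)

/-- Roots with `x ^ d` in the field with sixteen elements. -/
theorem small_of_f16 (n k : ℕ) (hk : 0 < k) (hkn : k < n) (hf : Irreducible (tri n k)) (x : Om)
    (hx : x ^ n + x ^ k + 1 = 0) (z : Om) (hz : z ≠ 1) (hz5 : z ^ 5 = 1)
    (h : (z * x) ^ n + (z * x) ^ k + 1 = 0) (hnk : n % 5 ≠ k % 5) :
    n ≤ 4 * Nat.gcd n k := by
  have h2 := two_eq
  have hp5 : Nat.Prime 5 := by norm_num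
  have hx0 := root_ne_zero n k hk hkn x hx
  have hzz : z ^ n + z ^ k ≠ 0 := by
    intro h3
    have : z ^ n = z ^ k := by linear_combination h3 - z ^ k * h2
    rw [z_pow_eq 5 hp5 z hz hz5] at this
    exact hnk this
  rw [mul_pow, mul_pow] at h
  have hB : x ^ k = (1 + z ^ n) / (z ^ n + z ^ k) := by
    rw [eq_div_iff hzz]
    linear_combination h - z ^ n * hx + (z ^ n * x ^ k - 1) * h2
  have hA : x ^ n = x ^ k + 1 := by linear_combination hx - (x ^ k + 1) * h2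
  have hfz : iterateFrobenius Om 2 4 z = z := by
    rw [iterateFrobenius_def]
    calc z ^ 2 ^ 4 = (z ^ 5) ^ 3 * z := by ring
      _ = z := by rw [hz5]; ring
  have hfB : iterateFrobenius Om 2 4 (x ^ k) = x ^ k := by
    rw [hB, map_div₀, map_add, map_add, map_one, map_pow, map_pow, hfz]
  have hfA : iterateFrobenius Om 2 4 (x ^ n) = x ^ n := by
    rw [hA, map_add, hfB, map_one]
  have hd : iterateFrobenius Om 2 4 (x ^ Nat.gcd n k) = x ^ Nat.gcd n k := by
    have e : x ^ Nat.gcd n k = (x ^ n) ^ (Nat.gcdA n k) * (x ^ k) ^ (Nat.gcdB n k) := by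
      rw [← zpow_natCast, ← zpow_natCast x n, ← zpow_natCast x k, ← zpow_mul, ← zpow_mul,
        ← zpow_add₀ hx0, Nat.gcd_eq_gcd_ab]
    rw [e, map_mul, map_zpow₀, map_zpow₀, hfA, hfB]
  have hdvd : dg (x ^ Nat.gcd n k) ∣ 4 := by
    rw [dg_dvd_iff]
    rw [iterateFrobenius_def] at hd
    exact hd
  have h4 : dg (x ^ Nat.gcd n k) ≤ 4 := Nat.le_of_dvd (by norm_num) hdvd
  have h5 := dg_le_mul x (Nat.gcd n k) (Nat.gcd_pos_of_pos_right n hk)
  rw [tri_dg n k hk hkn hf x hx] at h5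
  nlinarith

theorem dg_omega (z : Om) (hz3 : z ^ 3 = 1) : dg z ≤ 2 := by
  apply Nat.le_of_dvd (by norm_num)
  rw [dg_dvd_iff]
  calc z ^ 2 ^ 2 = z ^ 3 * z := by ring
    _ = z := by rw [hz3]; ring

theorem exists_omega : ∃ z : Om, z ^ 2 + z + 1 = 0 ∧ z ^ 3 = 1 ∧ z ≠ 1 := by
  obtain ⟨z, hz⟩ := tri_root 2 1 (by norm_num) (by norm_num)
  rw [pow_one] at hz
  refine ⟨z, hz, ?_, ?_⟩
  · linear_combination (z - 1) * hz
  · intro h
    rw [h] at hz
    have h2 := two_eq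
    have : (1 : Om) = 0 := by linear_combination hz - h2
    exact one_ne_zero this

theorem not_distinct3 (n k : ℕ) (hk : 0 < k) (hkn : k < n) (hn : 4 ≤ n)
    (hf : Irreducible (tri n k)) (h1 : n % 3 ≠ k % 3) (h2 : n % 3 ≠ 0) (h3 : k % 3 ≠ 0) :
    False := by
  obtain ⟨z, hz, hz3, hz1⟩ := exists_omega
  have hp : Nat.Prime 3 := by norm_num
  have hn3 : n % 3 < 3 := Nat.mod_lt _ (by norm_num)
  have hk3 : k % 3 < 3 := Nat.mod_lt _ (by norm_num)
  have h : z ^ n + z ^ k + 1 = 0 := by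
    have hc : (n % 3 = 1 ∧ k % 3 = 2) ∨ (n % 3 = 2 ∧ k % 3 = 1) := by omega
    rcases hc with ⟨ha, hb⟩ | ⟨ha, hb⟩
    · have e1 : z ^ n = z ^ 1 := (z_pow_eq 3 hp z hz1 hz3 n 1).2 (by omega)
      have e2 : z ^ k = z ^ 2 := (z_pow_eq 3 hp z hz1 hz3 k 2).2 (by omega)
      rw [e1, e2]
      linear_combination hz
    · have e1 : z ^ n = z ^ 2 := (z_pow_eq 3 hp z hz1 hz3 n 2).2 (by omega)
      have e2 : z ^ k = z ^ 1 := (z_pow_eq 3 hp z hz1 hz3 k 1).2 (by omega)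
      rw [e1, e2]
      linear_combination hz
  have := tri_dg n k hk hkn hf z h
  have h5 := dg_omega z hz3
  omega

end Pool.Agent.PN
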