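import Pool.Agent.helper66.PN.Fam

set_option autoImplicit false

open Polynomial

namespace Pool.Agent.PN

theorem eval_one_PS (S : Finset ℕ) : (PS S).eval 1 = (S.card : ZMod 2) := by
  unfold PS
  rw [eval_finsetSum]
  simp

theorem irr_eval_ne (q : (ZMod 2)[X]) (hq : Irreducible q) (hn : 2 ≤ q.natDegree) (c : ZMod 2) :
    q.eval c ≠ 0 := by
  intro h
  have h1 := degree_eq_one_of_irreducible_of_root hq h
  have h2 : q.natDegree = 1 := natDegree_eq_of_degree_eq_some h1
  omega

theorem weights (q : (ZMod 2)[X]) (hq : Irreducible q) (n : ℕ) (hn : 2 ≤ n)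
    (hqn : q.natDegree = n) (hc : q.support.card ≤ 5) :
    q.support.card = 5 ∨ ∃ k, 0 < k ∧ k < n ∧ q = tri n k := by
  have h0 : 0 ∈ q.support := by
    rw [mem_support_iff, coeff_zero_eq_eval_zero]
    exact irr_eval_ne q hq (by omega) 0
  have hnS : n ∈ q.support := by
    rw [mem_support_iff, ← hqn]
    exact leadingCoeff_ne_zero.2 hq.ne_zero
  have hle : ∀ i ∈ q.support, i ≤ n := by
    intro i hi
    rw [← hqn]
    exact le_natDegree_of_mem_supp i hi
  have hodd : (q.support.card : ZMod 2) ≠ 0 := by
    rw [← eval_one_PS, ← eq_PS]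
    exact irr_eval_ne q hq (by omega) 1
  have hodd2 : q.support.card % 2 = 1 := by
    rcases Nat.mod_two_eq_zero_or_one q.support.card with h | h
    · exact absurd ((ZMod.natCast_eq_zero_iff _ 2).2 (Nat.dvd_of_mod_eq_zero h)) hodd
    · exact h
  by_cases h5 : q.support.card = 5
  · exact Or.inl h5
  · right
    have h1 : 1 < q.support.card := by
      rw [Finset.one_lt_card]
      exact ⟨0, h0, n, hnS, by omega⟩
    have h3 : q.support.card = 3 := by omega
    have hsub : ({n, 0} : Finset ℕ) ⊆ q.support := by
      intro i hi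
      simp only [Finset.mem_insert, Finset.mem_singleton] at hi
      rcases hi with h | h <;> subst h <;> assumption
    have hc2 : ({n, 0} : Finset ℕ).card = 2 := Finset.card_pair (by omega)
    have hd : (q.support \ {n, 0}).card = 1 := by
      rw [Finset.card_sdiff_of_subset hsub, h3, hc2]
    obtain ⟨k, hk⟩ := Finset.card_eq_one.1 hd
    have hkm : k ∈ q.support \ {n, 0} := by rw [hk]; exact Finset.mem_singleton_self k
    rw [Finset.mem_sdiff] at hkm
    obtain ⟨hk1, hk2⟩ := hkm
    simp only [Finset.mem_insert, Finset.mem_singleton, not_or] at hk2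
    have hkn := hle k hk1
    refine ⟨k, by omega, by omega, ?_⟩
    rw [tri_eq n k (by omega) (by omega)]
    have hS : q.support = {n, k, 0} := by
      ext i
      simp only [Finset.mem_insert, Finset.mem_singleton]
      constructor
      · intro hi
        by_cases h6 : i = n
        · exact Or.inl h6
        by_cases h7 : i = 0
        · exact Or.inr (Or.inr h7)
        have : i ∈ q.support \ {n, 0} := by
          rw [Finset.mem_sdiff]
          refine ⟨hi, ?_⟩
          simp only [Finset.mem_insert, Finset.mem_singleton, not_or]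
          exact ⟨h6, h7⟩
        rw [hk, Finset.mem_singleton] at this
        exact Or.inr (Or.inl this)
      · rintro (h | h | h)
        · rw [h]; exact hnS
        · rw [h]; exact hk1
        · rw [h]; exact h0
    rw [← hS]
    exact eq_PS q

theorem tri_expand (n k e : ℕ) : expand (ZMod 2) e (tri n k) = tri (e * n) (e * k) := by
  unfold tri
  simp only [map_add, map_pow, expand_X, map_one]
  rw [← pow_mul, ← pow_mul]

/-- The first main theorem. -/
theorem weight_five (n : ℕ) (hn : 4 ≤ n) (q : (ZMod 2)[X]) (hq : Irreducible q)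
    (hqn : q.natDegree = n) (hc : q.support.card ≤ 5)
    (h : ¬ 60 ∣ n ∨ ∀ g : (ZMod 2)[X], q ≠ expand (ZMod 2) 15 g) : HasPenta n := by
  rcases weights q hq n (by omega) hqn hc with h5 | ⟨k, hk, hkn, rfl⟩
  · exact ⟨q, hqn, h5, hq⟩
  · apply tri_penta n k hk hkn hn hq
    rintro ⟨h1, h2⟩
    rcases h with h | h
    · apply h
      have h4 := four_dvd n k hk hkn hq (by omega) (by omega)
      omega
    · apply h (tri (n / 15) (k / 15))
      rw [tri_expand]
      congr 1 <;> omega

end Pool.Agent.PN
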