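import Pool.Agent.helper66.PN.Main

set_option autoImplicit false

open Polynomial

namespace Pool.Agent.PN

/-- The degree of an element over the intermediate field. -/
noncomputable def dgK (K : Type) [Field K] [Algebra K Om] (b : Om) : ℕ :=
  (minpoly K b).natDegree

theorem tri_penta_half (k : ℕ) (hk : 2 ≤ k) (hf : Irreducible (tri (2 * k) k)) :
    HasPenta (2 * k) := fam2 k hk hf

theorem tri_penta_quarter (k : ℕ) (hk : 0 < k) (hf : Irreducible (tri (4 * k) k)) :
    HasPenta (4 * k) := by
  by_cases h : k % 3 = 0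
  · obtain ⟨e, rfl⟩ : ∃ e, k = 3 * e := ⟨k / 3, by omega⟩
    have e1 : 4 * (3 * e) = 12 * e := by ring
    rw [e1] at hf ⊢
    exact fam4 e (by omega) hf
  · exact step3 (4 * k) k hk (by omega) (by omega) hf (by omega) (by omega) (by omega)

theorem tri_penta_quarter' (k : ℕ) (hk : 0 < k) (hf : Irreducible (tri (4 * k) (3 * k))) :
    HasPenta (4 * k) := by
  by_cases h : k % 3 = 0
  · obtain ⟨e, rfl⟩ : ∃ e, k = 3 * e := ⟨k / 3, by omega⟩
    have e1 : 4 * (3 * e) = 12 * e := by ring
    have e2 : 3 * (3 * e) = 9 * e := by ring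
    rw [e1, e2] at hf
    rw [e1]
    exact fam4' e (by omega) hf
  · exact step3 (4 * k) (3 * k) (by omega) (by omega) (by omega) hf (by omega) (by omega)
      (by omega)

/-- A trinomial with a root of full degree is irreducible. -/
theorem tri_irr (n k : ℕ) (hk : 0 < k) (hkn : k < n) (x : Om) (hx : x ^ n + x ^ k + 1 = 0)
    (hd : dg x = n) : Irreducible (tri n k) := by
  apply irr_of_dg x
  · rw [tri_eq n k hk hkn]
    apply PS_monic _ n
    · simp
    · intro i hi
      simp only [Finset.mem_insert, Finset.mem_singleton] at hi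
      omega
  · rw [tri_aeval, hx]
  · rw [tri_natDegree n k hk hkn, hd]

section

variable (K : Type) [Field K] [Algebra K Om]

theorem dgK_dvd_iff [Finite K] (hK : Nat.card K = 4) (hint : ∀ b : Om, IsIntegral K b) (b : Om)
    (m : ℕ) : dgK K b ∣ m ↔ b ^ (4 ^ m) = b := by
  unfold dgK
  have h := (minpoly.irreducible (hint b)).natDegree_dvd_iff_dvd_X_pow_card_pow_sub_X (n := m)
  rw [h, minpoly.dvd_iff, hK]
  simp [sub_eq_zero]

theorem dgK_le (b : Om) (f : K[X]) (hf : f ≠ 0) (h : aeval b f = 0) :
    dgK K b ≤ f.natDegree :=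
  Polynomial.natDegree_le_of_dvd (minpoly.dvd _ _ h) hf

theorem dgK_irr (hint : ∀ b : Om, IsIntegral K b) (b : Om) (f : K[X]) (hf : Irreducible f)
    (h : aeval b f = 0) : dgK K b = f.natDegree := by
  apply le_antisymm (dgK_le K b f hf.ne_zero h)
  have h1 : minpoly K b ∣ f := minpoly.dvd _ _ h
  have h2 : f ∣ minpoly K b :=
    ((minpoly.irreducible (hint b)).associated_of_dvd hf h1).symm.dvd
  exact Polynomial.natDegree_le_of_dvd h2 (minpoly.ne_zero (hint b))

/-- The two possible degrees over the prime field. -/
theorem dg_or [Finite K] (hK : Nat.card K = 4) (hint : ∀ b : Om, IsIntegral K b) (b : Om) :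
    (dg b = dgK K b ∧ dgK K b % 2 = 1) ∨ dg b = 2 * dgK K b := by
  have h : ∀ j, dg b ∣ 2 * j ↔ dgK K b ∣ j := by
    intro j
    rw [dg_dvd_iff, dgK_dvd_iff K hK hint, pow_mul]
    norm_num
  by_cases h1 : dg b % 2 = 1
  · left
    have hcop : Nat.Coprime (dg b) 2 := by
      rw [Nat.coprime_comm, Nat.coprime_two_left]
      exact Nat.odd_iff.2 h1
    have e : dg b = dgK K b := by
      apply Nat.dvd_antisymm
      · exact hcop.dvd_of_dvd_mul_left ((h (dgK K b)).2 dvd_rfl)
      · exact (h (dg b)).1 (Dvd.intro_left 2 rfl)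
    exact ⟨e, by rw [← e]; exact h1⟩
  · right
    obtain ⟨s, hs⟩ : ∃ s, dg b = 2 * s := ⟨dg b / 2, by omega⟩
    rw [hs] at h ⊢
    congr 1
    apply Nat.dvd_antisymm
    · have := (h (dgK K b)).2 dvd_rfl
      exact Nat.dvd_of_mul_dvd_mul_left (by norm_num) this
    · exact (h s).1 dvd_rfl

theorem two_eqK (hK : Nat.card K = 4) : (2 : K) = 0 := by
  have h : Nat.card K • (1 : K) = 0 := card_nsmul_eq_zero'
  rw [hK] at h
  have h2 : (2 : K) * 2 = 0 := by
    have : (4 : ℕ) • (1 : K) = 2 * 2 := by
      rw [nsmul_eq_mul]; norm_num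
    rw [← this, h]
  rcases mul_eq_zero.1 h2 with h | h <;> exact h

theorem four_pow [Finite K] (hK : Nat.card K = 4) (x : K) : x ^ 4 = x := by
  have := Fintype.ofFinite K
  have h := FiniteField.pow_card x
  rw [← Nat.card_eq_fintype_card, hK] at h
  exact h

theorem elems [Finite K] (hK : Nat.card K = 4) (x : K) : x = 0 ∨ x = 1 ∨ x ^ 2 + x + 1 = 0 := by
  have h : x * ((x - 1) * (x ^ 2 + x + 1)) = 0 := by
    linear_combination four_pow K hK x
  rcases mul_eq_zero.1 h with h | h
  · exact Or.inl h
  rcases mul_eq_zero.1 h with h | h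
  · exact Or.inr (Or.inl (by linear_combination h))
  · exact Or.inr (Or.inr h)

/-- Twisting by a cube root of unity keeps the degree over the intermediate field. -/
theorem dgK_twist [Finite K] (hK : Nat.card K = 4) (hint : ∀ b : Om, IsIntegral K b) (b z : Om)
    (hz : z ^ 3 = 1) : dgK K (z * b) = dgK K b := by
  have hz0 : z ≠ 0 := by
    intro h
    rw [h] at hz
    simp at hz
  have h4 : ∀ j : ℕ, z ^ (4 ^ j) = z := by
    intro j
    induction j with
    | zero => simp
    | succ j ih =>
      rw [pow_succ, pow_mul, ih]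
      calc z ^ 4 = z ^ 3 * z := by ring
        _ = z := by rw [hz, one_mul]
  have h : ∀ j, dgK K (z * b) ∣ j ↔ dgK K b ∣ j := by
    intro j
    rw [dgK_dvd_iff K hK hint, dgK_dvd_iff K hK hint, mul_pow, h4]
    constructor
    · intro h
      exact mul_left_cancel₀ hz0 h
    · intro h
      rw [h]
  exact Nat.dvd_antisymm ((h _).2 dvd_rfl) ((h _).1 dvd_rfl)

/-- The main step over the field with four elements. -/
theorem quart_step [Finite K] (hK : Nat.card K = 4) (hint : ∀ b : Om, IsIntegral K b)
    (m k : ℕ) (hm : 2 ≤ m) (hk : 0 < k) (hkm : k < m) (x : Om) (hx : dgK K x = m) (b c : K)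
    (hc : c ≠ 0) (hrel : x ^ m + algebraMap K Om b * x ^ k + algebraMap K Om c = 0)
    (hbc : ¬ (b ^ 2 = b ∧ c ^ 2 = c)) : HasPenta (2 * m) := by
  have h2 := two_eq
  have h2K := two_eqK K hK
  -- the degree over the prime field is `2 m`
  have hdeg : dg x = 2 * m := by
    rcases dg_or K hK hint x with ⟨h1, h3⟩ | h1
    · exfalso
      rw [hx] at h1 h3
      have hfix : x ^ (2 ^ m) = x := (dg_dvd_iff x m).1 (by rw [h1])
      have hF : ∀ y : K, iterateFrobenius Om 2 m (algebraMap K Om y) = algebraMap K Om (y ^ 2) := by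
        intro y
        rw [iterateFrobenius_def, ← map_pow]
        congr 1
        obtain ⟨s, hs⟩ : ∃ s, m = 2 * s + 1 := ⟨m / 2, by omega⟩
        rw [hs, pow_succ, pow_mul, pow_mul]
        have : ∀ s : ℕ, y ^ ((2 ^ 2) ^ s) = y := by
          intro s
          induction s with
          | zero => simp
          | succ s ih =>
            rw [pow_succ, pow_mul, ih]
            exact four_pow K hK y
        rw [this]
      have h4 : iterateFrobenius Om 2 m
          (x ^ m + algebraMap K Om b * x ^ k + algebraMap K Om c) = 0 := by rw [hrel, map_zero]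
      have hFx : iterateFrobenius Om 2 m x = x := by rw [iterateFrobenius_def]; exact hfix
      rw [map_add, map_add, map_mul, map_pow, map_pow, hFx, hF, hF] at h4
      have h5 : aeval x (C (b ^ 2 - b) * X ^ k + C (c ^ 2 - c) : K[X]) = 0 := by
        simp only [map_add, map_mul, map_pow, aeval_C, aeval_X, map_sub]
        rw [map_pow, map_pow] at h4
        linear_combination h4 - hrel
      by_cases h6 : (C (b ^ 2 - b) * X ^ k + C (c ^ 2 - c) : K[X]) = 0
      · have hc0 : (C (b ^ 2 - b) * X ^ k + C (c ^ 2 - c) : K[X]).coeff 0 = 0 := by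
          rw [h6, coeff_zero]
        have hck : (C (b ^ 2 - b) * X ^ k + C (c ^ 2 - c) : K[X]).coeff k = 0 := by
          rw [h6, coeff_zero]
        rw [coeff_add, coeff_C_mul, coeff_X_pow, coeff_C] at hc0 hck
        rw [if_neg (by omega)] at hc0
        rw [if_pos rfl, if_neg (by omega)] at hck
        simp at hc0 hck
        exact hbc ⟨by linear_combination hck, by linear_combination hc0⟩
      · have h7 := dgK_le K x _ h6 h5
        have h8 : (C (b ^ 2 - b) * X ^ k + C (c ^ 2 - c) : K[X]).natDegree ≤ k := by
          compute_degree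
        omega
    · rw [h1, hx]
  -- the relation at one
  have hone : b + c + 1 ≠ 0 := by
    intro h1
    have hf : (X ^ m + C b * X ^ k + C c : K[X]).IsRoot 1 := by
      rw [IsRoot.def]
      simp only [eval_add, eval_mul, eval_pow, eval_C, eval_X, one_pow]
      linear_combination h1
    obtain ⟨g, hg⟩ := dvd_iff_isRoot.2 hf
    have hfd : (X ^ m + C b * X ^ k + C c : K[X]).natDegree = m := by
      compute_degree
      · simp [show ¬ m = k by omega, show ¬ m = 0 by omega]
      · omega
      · omega
      · exact max_eq_left hkm.le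
    have hf0 : (X ^ m + C b * X ^ k + C c : K[X]) ≠ 0 := by
      intro h0
      rw [h0, natDegree_zero] at hfd
      omega
    have hg0 : g ≠ 0 := by
      intro h0
      rw [h0, mul_zero] at hg
      exact hf0 hg
    have hgd : g.natDegree + 1 = m := by
      rw [← hfd, hg, natDegree_mul (X_sub_C_ne_zero 1) hg0, natDegree_X_sub_C]
      ring
    have hev : aeval x (X ^ m + C b * X ^ k + C c : K[X]) = 0 := by
      simp only [map_add, map_mul, map_pow, aeval_C, aeval_X]
      exact hrel
    rw [hg, map_mul] at hev
    rcases mul_eq_zero.1 hev with h3 | h3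
    · have h4 := dgK_le K x _ (X_sub_C_ne_zero 1) h3
      rw [natDegree_X_sub_C] at h4
      omega
    · have h4 := dgK_le K x _ hg0 h3
      omega
  have hcc : c = 1 ∨ c ^ 2 + c + 1 = 0 := by
    rcases elems K hK c with h | h
    · exact absurd h hc
    · exact h
  have hcc' : algebraMap K Om c = 1 ∨ (algebraMap K Om c) ^ 2 + algebraMap K Om c + 1 = 0 := by
    rcases hcc with h | h
    · left; rw [h, map_one]
    · right
      rw [← map_pow, ← map_add, ← map_one (algebraMap K Om), ← map_add, h, map_zero]
  rcases elems K hK b with hb | hb | hb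
  · -- binomial
    subst hb
    have hc1 : c ≠ 1 := by
      intro h
      apply hbc
      rw [h]
      simp
    have h3 : (algebraMap K Om c) ^ 2 + algebraMap K Om c + 1 = 0 := by
      rcases hcc' with h | h
      · exact absurd ((algebraMap K Om).injective (by rw [h, map_one])) hc1
      · exact h
    rw [map_zero, zero_mul, add_zero] at hrel
    have h4 : x ^ (2 * m) + x ^ m + 1 = 0 := by
      rw [mul_comm, pow_mul]
      linear_combination (x ^ m - algebraMap K Om c + 1) * hrel + h3 - algebraMap K Om c * h2
    exact fam2 m hm (tri_irr (2 * m) m (by omega) (by omega) x h4 hdeg)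
  · -- `b = 1`
    subst hb
    have hc1 : c ≠ 1 := by
      intro h
      apply hbc
      rw [h]
      simp
    have h3 : (algebraMap K Om c) ^ 2 + algebraMap K Om c + 1 = 0 := by
      rcases hcc' with h | h
      · exact absurd ((algebraMap K Om).injective (by rw [h, map_one])) hc1
      · exact h
    rw [map_one, one_mul] at hrel
    have h4 : (x ^ m) ^ 2 + (x ^ k) ^ 2 + x ^ m + x ^ k + 1 = 0 := by
      linear_combination (x ^ m + x ^ k - algebraMap K Om c + 1) * hrel + h3
        - (algebraMap K Om c + x ^ m * x ^ k) * h2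
    by_cases hmk : m = 2 * k
    · have h5 : x ^ (4 * k) + x ^ k + 1 = 0 := by
        have e1 : x ^ (4 * k) = (x ^ m) ^ 2 := by rw [← pow_mul]; congr 1; omega
        have e2 : x ^ m = (x ^ k) ^ 2 := by rw [← pow_mul]; congr 1; omega
        rw [e1]
        linear_combination h4 - e2 - (x ^ k) ^ 2 * h2
      have e3 : 2 * m = 4 * k := by omega
      rw [e3] at hdeg ⊢
      exact tri_penta_quarter k hk (tri_irr _ _ (by omega) (by omega) x h5 hdeg)
    · apply goal_of (2 * m) (2 * k) m k x hdeg (by omega) (by omega) (by omega) (by omega)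
        (by omega) (by omega) (by omega) (by omega) (by omega)
      rw [mul_comm 2 m, mul_comm 2 k, pow_mul, pow_mul, h4]
  · have h3 : (algebraMap K Om b) ^ 2 + algebraMap K Om b + 1 = 0 := by
      rw [← map_pow, ← map_add, ← map_one (algebraMap K Om), ← map_add, hb, map_zero]
    rcases hcc with hc1 | hc1
    · -- `c = 1`
      subst hc1
      rw [map_one] at hrel
      have h4 : (x ^ m) ^ 2 + x ^ m * x ^ k + (x ^ k) ^ 2 + x ^ k + 1 = 0 := by
        linear_combination (x ^ m + 1 - algebraMap K Om b * x ^ k - x ^ k) * hrel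
          + (x ^ k) ^ 2 * h3 + (x ^ m * x ^ k + x ^ k - x ^ m) * h2
      apply goal_of (2 * m) (m + k) (2 * k) k x hdeg (by omega) (by omega) (by omega) (by omega)
        (by omega) (by omega) (by omega) (by omega) (by omega)
      rw [mul_comm 2 m, mul_comm 2 k, pow_mul, pow_mul, pow_add, h4]
    · -- both nontrivial
      have h5 : (b - c) * (b + c + 1) = 0 := by linear_combination hb - hc1
      have h6 : b = c := by
        rcases mul_eq_zero.1 h5 with h | h
        · linear_combination h
        · exact absurd h hone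
      subst h6
      have h4 : (x ^ m) ^ 2 + x ^ m * x ^ k + (x ^ k) ^ 2 + x ^ m + 1 = 0 := by
        linear_combination (x ^ m - algebraMap K Om b * (x ^ k + 1) - (x ^ k + 1)) * hrel
          + (x ^ k + 1) ^ 2 * h3 + (x ^ m * x ^ k + x ^ m - x ^ k) * h2
      by_cases hmk : m = 2 * k
      · have h5 : x ^ (4 * k) + x ^ (3 * k) + 1 = 0 := by
          have e1 : x ^ (4 * k) = (x ^ m) ^ 2 := by rw [← pow_mul]; congr 1; omega
          have e2 : x ^ m = (x ^ k) ^ 2 := by rw [← pow_mul]; congr 1; omega
          have e3 : x ^ (3 * k) = x ^ m * x ^ k := by rw [← pow_add]; congr 1; omega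
          rw [e1, e3]
          linear_combination h4 - e2 - (x ^ k) ^ 2 * h2
        have e3 : 2 * m = 4 * k := by omega
        rw [e3] at hdeg ⊢
        exact tri_penta_quarter' k hk (tri_irr _ _ (by omega) (by omega) x h5 hdeg)
      · apply goal_of (2 * m) (m + k) (2 * k) m x hdeg (by omega) (by omega) (by omega) (by omega)
          (by omega) (by omega) (by omega) (by omega) (by omega)
        rw [mul_comm 2 m, mul_comm 2 k, pow_mul, pow_mul, pow_add, h4]

end

theorem normal_form (K : Type) [Field K] (m : ℕ) (hm : 2 ≤ m) (q : K[X]) (hq : Irreducible q)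
    (hqm : q.natDegree = m) (hc : q.support.card ≤ 3) :
    q.coeff 0 ≠ 0 ∧ q.coeff m ≠ 0 ∧ ∃ k, 0 < k ∧ k < m ∧
      q = C (q.coeff m) * X ^ m + C (q.coeff k) * X ^ k + C (q.coeff 0) := by
  have h0' : q.coeff 0 ≠ 0 := by
    rw [coeff_zero_eq_eval_zero]
    intro h
    have h1 := degree_eq_one_of_irreducible_of_root hq h
    have h2 : q.natDegree = 1 := natDegree_eq_of_degree_eq_some h1
    omega
  have hm' : q.coeff m ≠ 0 := by
    rw [← hqm]
    exact leadingCoeff_ne_zero.2 hq.ne_zero
  refine ⟨h0', hm', ?_⟩
  have h0 : 0 ∈ q.support := mem_support_iff.2 h0'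
  have hmS : m ∈ q.support := mem_support_iff.2 hm'
  have hle : ∀ i ∈ q.support, i ≤ m := by
    intro i hi
    rw [← hqm]
    exact le_natDegree_of_mem_supp i hi
  have hsub : ({m, 0} : Finset ℕ) ⊆ q.support := by
    intro i hi
    simp only [Finset.mem_insert, Finset.mem_singleton] at hi
    rcases hi with h | h <;> subst h <;> assumption
  have hc2 : ({m, 0} : Finset ℕ).card = 2 := Finset.card_pair (by omega)
  have hd : (q.support \ {m, 0}).card ≤ 1 := by
    rw [Finset.card_sdiff_of_subset hsub, hc2]
    omega
  have key : ∃ k, 0 < k ∧ k < m ∧ ∀ i, i ∉ ({m, 0, k} : Finset ℕ) → q.coeff i = 0 := by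
    rcases Nat.lt_or_ge (q.support \ {m, 0}).card 1 with h | h
    · have h1 : q.support \ {m, 0} = ∅ := by
        rw [← Finset.card_eq_zero]
        omega
      refine ⟨1, by norm_num, by omega, ?_⟩
      intro i hi
      simp only [Finset.mem_insert, Finset.mem_singleton, not_or] at hi
      by_contra hne
      have : i ∈ q.support \ {m, 0} := by
        rw [Finset.mem_sdiff]
        refine ⟨mem_support_iff.2 hne, ?_⟩
        simp only [Finset.mem_insert, Finset.mem_singleton, not_or]
        exact ⟨hi.1, hi.2.1⟩
      rw [h1] at this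
      exact absurd this (Finset.notMem_empty i)
    · obtain ⟨k, hk⟩ := Finset.card_eq_one.1 (le_antisymm hd h)
      have hkm : k ∈ q.support \ {m, 0} := by rw [hk]; exact Finset.mem_singleton_self k
      rw [Finset.mem_sdiff] at hkm
      obtain ⟨hk1, hk2⟩ := hkm
      simp only [Finset.mem_insert, Finset.mem_singleton, not_or] at hk2
      have hkn := hle k hk1
      refine ⟨k, by omega, by omega, ?_⟩
      intro i hi
      simp only [Finset.mem_insert, Finset.mem_singleton, not_or] at hi
      by_contra hne
      have : i ∈ q.support \ {m, 0} := by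
        rw [Finset.mem_sdiff]
        refine ⟨mem_support_iff.2 hne, ?_⟩
        simp only [Finset.mem_insert, Finset.mem_singleton, not_or]
        exact ⟨hi.1, hi.2.1⟩
      rw [hk, Finset.mem_singleton] at this
      exact hi.2.2 this
  obtain ⟨k, hk0, hkm, hk⟩ := key
  refine ⟨k, hk0, hkm, ?_⟩
  ext i
  rw [coeff_add, coeff_add, coeff_C_mul, coeff_C_mul, coeff_X_pow, coeff_X_pow, coeff_C]
  by_cases h1 : i = m
  · subst h1
    rw [if_pos rfl, if_neg (by omega), if_neg (by omega)]
    ring
  by_cases h2 : i = k
  · subst h2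
    rw [if_neg (by omega), if_pos rfl, if_neg (by omega)]
    ring
  by_cases h3 : i = 0
  · subst h3
    rw [if_neg (by omega), if_neg (by omega), if_pos rfl]
    ring
  · rw [if_neg h1, if_neg h2, if_neg h3, hk i]
    · ring
    · simp only [Finset.mem_insert, Finset.mem_singleton, not_or]
      exact ⟨h1, h3, h2⟩

/-- The second main theorem, with the embedding given. -/
theorem quartic_aux (K : Type) [Field K] [Algebra K Om] (hK : Nat.card K = 4)
    (hint : ∀ b : Om, IsIntegral K b) (m : ℕ) (hm : 2 ≤ m) (q : K[X]) (hq : Irreducible q)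
    (hqm : q.natDegree = m) (hc : q.support.card ≤ 3) : HasPenta (2 * m) := by
  have hfin : Finite K := Nat.finite_of_card_ne_zero (by rw [hK]; norm_num)
  have h2 := two_eq
  obtain ⟨hc0, ha0, k, hk0, hkm, hnf⟩ := normal_form K m hm q hq hqm hc
  obtain ⟨x, hx⟩ : ∃ x : Om, aeval x q = 0 := by
    apply IsAlgClosed.exists_aeval_eq_zero Om q
    rw [degree_eq_natDegree hq.ne_zero, hqm]
    intro h
    have : m = 0 := by exact_mod_cast h
    omega
  have hdx : dgK K x = m := by rw [dgK_irr K hint x q hq hx, hqm]
  obtain ⟨a, ha⟩ : ∃ a, a = q.coeff m := ⟨_, rfl⟩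
  obtain ⟨b, hb⟩ : ∃ b, b = q.coeff k / a := ⟨_, rfl⟩
  obtain ⟨c, hcc⟩ : ∃ c, c = q.coeff 0 / a := ⟨_, rfl⟩
  rw [← ha] at ha0
  have hb' : q.coeff k = a * b := by rw [hb, mul_div_cancel₀ _ ha0]
  have hc' : q.coeff 0 = a * c := by rw [hcc, mul_div_cancel₀ _ ha0]
  rw [← ha, hb', hc'] at hnf
  have hc1 : c ≠ 0 := by
    intro h
    rw [hc', h, mul_zero] at hc0
    exact hc0 rfl
  have ha1 : algebraMap K Om a ≠ 0 := by
    intro h
    apply ha0
    apply (algebraMap K Om).injective
    rw [h, map_zero]
  have hrel : x ^ m + algebraMap K Om b * x ^ k + algebraMap K Om c = 0 := by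
    rw [hnf] at hx
    simp only [map_add, map_mul, map_pow, aeval_C, aeval_X] at hx
    apply mul_left_cancel₀ ha1
    linear_combination hx
  have hone : 1 + b + c ≠ 0 := by
    intro h
    have h1 : q.eval 1 = 0 := by
      rw [hnf]
      simp only [eval_add, eval_mul, eval_pow, eval_C, eval_X, one_pow]
      linear_combination a * h
    have h3 := degree_eq_one_of_irreducible_of_root hq h1
    have h4 : q.natDegree = 1 := natDegree_eq_of_degree_eq_some h3
    omega
  by_cases hbc : b ^ 2 = b ∧ c ^ 2 = c
  · obtain ⟨hb2, hc2⟩ := hbc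
    have hc3 : c = 1 := by
      have : c * (c - 1) = 0 := by linear_combination hc2
      rcases mul_eq_zero.1 this with h | h
      · exact absurd h hc1
      · linear_combination h
    have hb3 : b = 1 := by
      have : b * (b - 1) = 0 := by linear_combination hb2
      rcases mul_eq_zero.1 this with h | h
      · exfalso
        apply hone
        rw [h, hc3]
        linear_combination two_eqK K hK
      · linear_combination h
    rw [hb3, hc3, map_one, one_mul] at hrel
    -- a nontrivial cube root of unity
    obtain ⟨w, hw⟩ : ∃ w : K, w ^ 2 + w + 1 = 0 := by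
      by_contra hcon
      push Not at hcon
      have hall : ∀ y : K, y ∈ ({0, 1} : Set K) := by
        intro y
        rcases elems K hK y with h | h | h
        · simp [h]
        · simp [h]
        · exact absurd h (hcon y)
      have h1 : Nat.card K ≤ 2 := by
        have h3 : (Set.univ : Set K) = {0, 1} := by
          ext y
          simp only [Set.mem_univ, true_iff]
          exact hall y
        rw [← Set.ncard_univ, h3]
        exact Set.ncard_insert_le _ _ |>.trans (by simp)
      omega
    have hw3 : w ^ 3 = 1 := by linear_combination (w - 1) * hw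
    have hw1 : w ≠ 1 := by
      intro h
      rw [h] at hw
      have : (1 : K) = 0 := by linear_combination hw - two_eqK K hK
      exact one_ne_zero this
    obtain ⟨z, hz⟩ : ∃ z : Om, z = algebraMap K Om w := ⟨_, rfl⟩
    have hz3 : z ^ 3 = 1 := by rw [hz, ← map_pow, hw3, map_one]
    have hz1 : z ≠ 1 := by
      intro h
      apply hw1
      apply (algebraMap K Om).injective
      rw [← hz, h, map_one]
    have hz0 : z ≠ 0 := by
      intro h
      rw [h] at hz3
      simp at hz3
    have hdz : dgK K (z * x) = m := by rw [dgK_twist K hK hint x z hz3, hdx]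
    have hw0 : w ^ m ≠ 0 := by
      apply pow_ne_zero
      intro h
      rw [h] at hw3
      simp at hw3
    have hrel2 : (z * x) ^ m + algebraMap K Om (w ^ (m + 2 * k)) * (z * x) ^ k
        + algebraMap K Om (w ^ m) = 0 := by
      rw [map_pow, map_pow, ← hz, mul_pow, mul_pow]
      have e1 : z ^ (m + 2 * k) * z ^ k = z ^ m := by
        rw [← pow_add]
        have e2 : m + 2 * k + k = m + 3 * k := by ring
        rw [e2, pow_add, pow_mul, hz3, one_pow, mul_one]
      linear_combination z ^ m * hrel + x ^ k * e1
    by_cases hbc2 : (w ^ (m + 2 * k)) ^ 2 = w ^ (m + 2 * k) ∧ (w ^ m) ^ 2 = w ^ m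
    · exfalso
      obtain ⟨h3, h4⟩ := hbc2
      have hp : Nat.Prime 3 := by norm_num
      have hwm : w ^ m = 1 := by
        have : w ^ m * (w ^ m - 1) = 0 := by linear_combination h4
        rcases mul_eq_zero.1 this with h | h
        · exact absurd h hw0
        · linear_combination h
      have hwk : w ^ (m + 2 * k) = 1 := by
        have : w ^ (m + 2 * k) * (w ^ (m + 2 * k) - 1) = 0 := by linear_combination h3
        rcases mul_eq_zero.1 this with h | h
        · exfalso
          have : w ≠ 0 := by
            intro h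
            rw [h] at hw3
            simp at hw3
          exact pow_ne_zero _ this h
        · linear_combination h
      have hzm : z ^ m = 1 := by rw [hz, ← map_pow, hwm, map_one]
      have hzk2 : z ^ (m + 2 * k) = 1 := by rw [hz, ← map_pow, hwk, map_one]
      have hm3 : 3 ∣ m := (z_pow_one 3 hp z hz1 hz3 m).1 hzm
      have hk3' : 3 ∣ m + 2 * k := (z_pow_one 3 hp z hz1 hz3 (m + 2 * k)).1 hzk2
      have hk3 : 3 ∣ k := by omega
      have hzk : z ^ k = 1 := (z_pow_one 3 hp z hz1 hz3 k).2 hk3
      have hrel3 : (z * x) ^ m + (z * x) ^ k + 1 = 0 := by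
        rw [mul_pow, mul_pow, hzm, hzk, one_mul, one_mul, hrel]
      have hb1 : dg x ≤ m := by
        have := dg_le x (tri m k) (by
          intro h0
          have := tri_natDegree m k hk0 hkm
          rw [h0, natDegree_zero] at this
          omega) (by rw [tri_aeval, hrel])
        rwa [tri_natDegree m k hk0 hkm] at this
      have hb2 : dg (z * x) ≤ m := by
        have := dg_le (z * x) (tri m k) (by
          intro h0
          have := tri_natDegree m k hk0 hkm
          rw [h0, natDegree_zero] at this
          omega) (by rw [tri_aeval, hrel3])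
        rwa [tri_natDegree m k hk0 hkm] at this
      have hx0 := root_ne_zero m k hk0 hkm x hrel
      rcases dg_or K hK hint x with ⟨h5, h6⟩ | h5
      · rcases dg_or K hK hint (z * x) with ⟨h7, h8⟩ | h7
        · rw [hdx] at h5 h6
          rw [hdz] at h7
          have f1 : x ^ (2 ^ m) = x := (dg_dvd_iff x m).1 (by rw [h5])
          have f2 : (z * x) ^ (2 ^ m) = z * x := (dg_dvd_iff (z * x) m).1 (by rw [h7])
          rw [mul_pow, f1] at f2
          have f3 : z ^ (2 ^ m) = z := mul_right_cancel₀ hx0 f2
          obtain ⟨s, hs⟩ : ∃ s, m = 2 * s + 1 := ⟨m / 2, by omega⟩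
          have f4 : ∀ j : ℕ, z ^ ((2 ^ 2) ^ j) = z := by
            intro j
            induction j with
            | zero => simp
            | succ j ih =>
              rw [pow_succ, pow_mul, ih]
              calc z ^ 2 ^ 2 = z ^ 3 * z := by ring
                _ = z := by rw [hz3, one_mul]
          rw [hs, pow_succ, pow_mul, pow_mul, f4] at f3
          apply hz1
          apply mul_left_cancel₀ hz0
          linear_combination f3
        · rw [hdz] at h7
          omega
      · rw [hdx] at h5
        omega
    · exact quart_step K hK hint m k hm hk0 hkm (z * x) hdz _ _ hw0 hrel2 hbc2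
  · exact quart_step K hK hint m k hm hk0 hkm x hdx b c hc1 hrel hbc

/-- The second main theorem. -/
theorem quartic (K : Type) [Field K] (hK : Nat.card K = 4) (m : ℕ) (hm : 2 ≤ m) (q : K[X])
    (hq : Irreducible q) (hqm : q.natDegree = m) (hc : q.support.card ≤ 3) :
    HasPenta (2 * m) := by
  have hfin : Finite K := Nat.finite_of_card_ne_zero (by rw [hK]; norm_num)
  have hchar : CharP K 2 := by
    apply CharTwo.of_one_ne_zero_of_two_eq_zero one_ne_zero
    have h : Nat.card K • (1 : K) = 0 := card_nsmul_eq_zero'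
    rw [hK] at h
    have h2 : (2 : K) * 2 = 0 := by
      have : (4 : ℕ) • (1 : K) = 2 * 2 := by
        rw [nsmul_eq_mul]; norm_num
      rw [← this, h]
    rcases mul_eq_zero.1 h2 with h | h <;> exact h
  letI : Algebra (ZMod 2) K := ZMod.algebra K 2
  have halg : Algebra.IsAlgebraic (ZMod 2) K := inferInstance
  letI : Algebra K Om := (IsAlgClosed.lift : K →ₐ[ZMod 2] Om).toRingHom.toAlgebra
  have htower : IsScalarTower (ZMod 2) K Om :=
    IsScalarTower.of_algebraMap_eq' (Subsingleton.elim _ _)
  exact quartic_aux K hK (fun b => (integ b).tower_top) m hm q hq hqm hc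

end Pool.Agent.PN
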