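import Pool.Agent.helper66.PN.Quart

set_option autoImplicit false

open Polynomial

namespace Pool.Agent.PN

theorem four_dvd_of_fix (c : Om) (hc : c ^ 4 + c + 1 = 0) (t : ℕ) (h : c ^ (2 ^ t) = c) :
    4 ∣ t := by
  have h2 := two_eq
  have h16 : c ^ 16 = c := by
    linear_combination (-3 * c - 3 * c ^ 2 - c ^ 3 + c ^ 4 + 2 * c ^ 5 + c ^ 6 - c ^ 8 - c ^ 9
      + c ^ 12) * hc + (c + 3 * c ^ 2 + 2 * c ^ 3) * h2
  have hfix : ∀ s : ℕ, c ^ ((2 ^ 4) ^ s) = c := by
    intro s
    induction s with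
    | zero => simp
    | succ s ih =>
      rw [pow_succ, pow_mul, ih]
      norm_num
      exact h16
  have h3 : c ^ (2 ^ (t % 4)) = c := by
    have e : 2 ^ t = (2 ^ 4) ^ (t / 4) * 2 ^ (t % 4) := by
      rw [← pow_mul, ← pow_add]
      congr 1
      omega
    rw [e, pow_mul, hfix] at h
    exact h
  have hsq : c ^ 2 ≠ c := by
    intro h4
    have : (1 : Om) = 0 := by
      linear_combination hc - (c ^ 2 + c + 1) * h4 - c * h2
    exact one_ne_zero this
  have hr : t % 4 = 0 ∨ t % 4 = 1 ∨ t % 4 = 2 ∨ t % 4 = 3 := by omega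
  rcases hr with hr | hr | hr | hr
  · omega
  · exfalso
    rw [hr] at h3
    apply hsq
    simpa using h3
  · exfalso
    rw [hr] at h3
    norm_num at h3
    have : (1 : Om) = 0 := by
      linear_combination hc - h3 - c * h2
    exact one_ne_zero this
  · exfalso
    rw [hr] at h3
    norm_num at h3
    apply hsq
    linear_combination h16 - (c ^ 8 + c) * h3

section

variable (K : Type) [Field K] [Algebra K Om]

theorem dgK_dvd_iff16 [Finite K] (hK : Nat.card K = 16) (hint : ∀ b : Om, IsIntegral K b)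
    (b : Om) (m : ℕ) : dgK K b ∣ m ↔ b ^ (2 ^ (4 * m)) = b := by
  unfold dgK
  have h := (minpoly.irreducible (hint b)).natDegree_dvd_iff_dvd_X_pow_card_pow_sub_X (n := m)
  rw [h, minpoly.dvd_iff, hK, pow_mul]
  norm_num [sub_eq_zero]

theorem dgK_le_mul (hint : ∀ b : Om, IsIntegral K b) (b : Om) (d : ℕ) (hd : 0 < d) :
    dgK K b ≤ d * dgK K (b ^ d) := by
  have h : aeval b (expand K d (minpoly K (b ^ d))) = 0 := by
    rw [expand_aeval, minpoly.aeval]
  have h0 : expand K d (minpoly K (b ^ d)) ≠ 0 := by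
    rw [Ne, expand_eq_zero hd]
    exact minpoly.ne_zero (hint _)
  have := dgK_le K b _ h0 h
  rwa [natDegree_expand, mul_comm] at this

theorem dg_of_rel [Finite K] (hK : Nat.card K = 16) (hint : ∀ b : Om, IsIntegral K b)
    (x c A B : Om) (hc : c ^ 4 + c + 1 = 0) (hrel : A + c * B = 0) (hB : B ≠ 0)
    (hA' : ∀ t, x ^ (2 ^ t) = x → iterateFrobenius Om 2 t A = A)
    (hB' : ∀ t, x ^ (2 ^ t) = x → iterateFrobenius Om 2 t B = B) :
    dg x = 4 * dgK K x := by
  have hfix : x ^ (2 ^ dg x) = x := (dg_dvd_iff x (dg x)).1 dvd_rfl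
  have h1 : iterateFrobenius Om 2 (dg x) (A + c * B) = 0 := by rw [hrel, map_zero]
  rw [map_add, map_mul, hA' _ hfix, hB' _ hfix, iterateFrobenius_def] at h1
  have h3 : c ^ (2 ^ dg x) = c := by
    apply mul_right_cancel₀ hB
    linear_combination h1 - hrel
  obtain ⟨s, hs⟩ := four_dvd_of_fix c hc (dg x) h3
  have h : ∀ j, s ∣ j ↔ dgK K x ∣ j := by
    intro j
    rw [dgK_dvd_iff16 K hK hint, ← dg_dvd_iff, hs]
    constructor
    · intro h
      exact Nat.mul_dvd_mul_left 4 h
    · intro h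
      exact Nat.dvd_of_mul_dvd_mul_left (by norm_num) h
  rw [hs]
  congr 1
  exact Nat.dvd_antisymm ((h _).2 dvd_rfl) ((h _).1 dvd_rfl)

theorem sixt_aux [Finite K] (hK : Nat.card K = 16) (hint : ∀ b : Om, IsIntegral K b)
    (m k : ℕ) (hk : 0 < k) (hkm : k < m) (c : K) (hc : c ^ 4 + c + 1 = 0) (q : K[X])
    (hq : Irreducible q)
    (hform : q = X ^ m + C c * X ^ k + 1 ∨ q = X ^ m + X ^ k + C c) : HasPenta (4 * m) := by
  have h2 := two_eq
  have hqd : q.natDegree = m := by
    rcases hform with h | h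
    · rw [h]
      compute_degree
      · simp [show ¬ m = k by omega, show ¬ m = 0 by omega]
      · omega
      · omega
      · exact max_eq_left hkm.le
    · rw [h]
      compute_degree
      · simp [show ¬ m = k by omega, show ¬ m = 0 by omega]
      · omega
      · exact max_eq_left hkm.le
  obtain ⟨x, hx⟩ : ∃ x : Om, aeval x q = 0 := by
    apply IsAlgClosed.exists_aeval_eq_zero Om q
    rw [degree_eq_natDegree hq.ne_zero, hqd]
    intro h
    have : m = 0 := by exact_mod_cast h
    omega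
  have hdx : dgK K x = m := by rw [dgK_irr K hint x q hq hx, hqd]
  obtain ⟨d, hd⟩ : ∃ d : Om, d = algebraMap K Om c := ⟨_, rfl⟩
  have hd4 : d ^ 4 + d + 1 = 0 := by
    rw [hd, ← map_pow, ← map_add, ← map_one (algebraMap K Om), ← map_add, hc, map_zero]
  have hd0 : d ≠ 0 := by
    intro h
    rw [h] at hd4
    simp at hd4
  rcases hform with h | h
  · rw [h] at hx
    simp only [map_add, map_mul, map_pow, aeval_C, aeval_X, map_one] at hx
    rw [← hd] at hx
    have hx0 : x ≠ 0 := by
      intro h0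
      rw [h0, zero_pow (by omega), zero_pow (by omega)] at hx
      simp at hx
    have hdeg : dg x = 4 * m := by
      rw [← hdx]
      apply dg_of_rel K hK hint x d (x ^ m + 1) (x ^ k) hd4
      · linear_combination hx
      · exact pow_ne_zero _ hx0
      · intro t ht
        rw [map_add, map_pow, map_one, iterateFrobenius_def, ht]
      · intro t ht
        rw [map_pow, iterateFrobenius_def, ht]
    apply goal_of (4 * m) (m + 3 * k) (4 * k) (3 * k) x hdeg (by omega) (by omega) (by omega)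
      (by omega) (by omega) (by omega) (by omega) (by omega) (by omega)
    rw [mul_comm 4 m, mul_comm 4 k, mul_comm 3 k, pow_mul, pow_mul, pow_add, pow_mul]
    have h5 : d * x ^ k = x ^ m + 1 := by linear_combination hx - (x ^ m + 1) * h2
    have h6 : (d * x ^ k) ^ 4 + (d * x ^ k) * (x ^ k) ^ 3 + (x ^ k) ^ 4 = 0 := by
      linear_combination (x ^ k) ^ 4 * hd4
    rw [h5] at h6
    linear_combination h6 - (2 * (x ^ m) ^ 3 + 3 * (x ^ m) ^ 2 + 2 * x ^ m) * h2
  · rw [h] at hx
    simp only [map_add, map_mul, map_pow, aeval_C, aeval_X] at hx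
    rw [← hd] at hx
    have hdeg : dg x = 4 * m := by
      rw [← hdx]
      apply dg_of_rel K hK hint x d (x ^ m + x ^ k) 1 hd4
      · linear_combination hx
      · exact one_ne_zero
      · intro t ht
        rw [map_add, map_pow, map_pow, iterateFrobenius_def, ht]
      · intro t ht
        rw [map_one]
    have h5 : d = x ^ m + x ^ k := by linear_combination hx - (x ^ m + x ^ k) * h2
    have hmk : m ≠ 4 * k := by
      intro hmk
      have e1 : x ^ m = (x ^ k) ^ 4 := by rw [← pow_mul]; congr 1; omega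
      rw [e1] at h5
      have e2 : (x ^ k) ^ (2 ^ (4 * 2)) = x ^ k := by
        have e3 : (x ^ k) ^ 16 = x ^ k + 1 := by
          have e4 : (((x ^ k) ^ 4 + x ^ k) ^ 2) ^ 2 = (x ^ k) ^ 16 + (x ^ k) ^ 4 := by
            rw [CharTwo.add_sq, CharTwo.add_sq]
            ring
          rw [h5] at hd4
          have e5 : ((x ^ k) ^ 4 + x ^ k) ^ 4 = (x ^ k) ^ 16 + (x ^ k) ^ 4 := by
            rw [← e4]; ring
          rw [e5] at hd4
          linear_combination hd4 - ((x ^ k) ^ 4 + x ^ k + 1) * h2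
        have e6 : (x ^ k + 1) ^ 16 = (x ^ k) ^ 16 + 1 := by
          have e7 : (x ^ k + 1) ^ 16 = ((((x ^ k + 1) ^ 2) ^ 2) ^ 2) ^ 2 := by ring
          rw [e7, CharTwo.add_sq, CharTwo.add_sq, CharTwo.add_sq, CharTwo.add_sq]
          ring
        have e8 : (x ^ k) ^ (2 ^ (4 * 2)) = ((x ^ k) ^ 16) ^ 16 := by
          rw [← pow_mul (x ^ k) 16 16]
          norm_num
        rw [e8, e3, e6, e3]
        linear_combination h2
      have e9 : dgK K (x ^ k) ∣ 2 := (dgK_dvd_iff16 K hK hint _ _).2 e2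
      have e10 := Nat.le_of_dvd (by norm_num) e9
      have e11 := dgK_le_mul K hint x k hk
      rw [hdx] at e11
      have e12 : k * dgK K (x ^ k) ≤ k * 2 := Nat.mul_le_mul_left k e10
      omega
    apply goal_of (4 * m) (4 * k) m k x hdeg (by omega) (by omega) (by omega)
      (by omega) (by omega) (by omega) (by omega) (by omega) (by omega)
    rw [mul_comm 4 m, mul_comm 4 k, pow_mul, pow_mul]
    rw [h5] at hd4
    linear_combination hd4 - (2 * (x ^ m) ^ 3 * x ^ k + 3 * (x ^ m) ^ 2 * (x ^ k) ^ 2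
      + 2 * x ^ m * (x ^ k) ^ 3) * h2

end

/-- The third main theorem. -/
theorem sixteen (K : Type) [Field K] (hK : Nat.card K = 16) (m k : ℕ) (hk : 0 < k)
    (hkm : k < m) (c : K) (hc : c ^ 4 + c + 1 = 0) (q : K[X]) (hq : Irreducible q)
    (hform : q = X ^ m + C c * X ^ k + 1 ∨ q = X ^ m + X ^ k + C c) : HasPenta (4 * m) := by
  have hfin : Finite K := Nat.finite_of_card_ne_zero (by rw [hK]; norm_num)
  have hchar : CharP K 2 := by
    apply CharTwo.of_one_ne_zero_of_two_eq_zero one_ne_zero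
    have h : Nat.card K • (1 : K) = 0 := card_nsmul_eq_zero'
    rw [hK] at h
    have h2 : (2 : K) ^ 4 = 0 := by
      have : (16 : ℕ) • (1 : K) = 2 ^ 4 := by
        rw [nsmul_eq_mul]; norm_num
      rw [← this, h]
    exact eq_zero_of_pow_eq_zero h2
  letI : Algebra (ZMod 2) K := ZMod.algebra K 2
  have halg : Algebra.IsAlgebraic (ZMod 2) K := inferInstance
  letI : Algebra K Om := (IsAlgClosed.lift : K →ₐ[ZMod 2] Om).toRingHom.toAlgebra
  have htower : IsScalarTower (ZMod 2) K Om :=
    IsScalarTower.of_algebraMap_eq' (Subsingleton.elim _ _)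
  exact sixt_aux K hK (fun b => (integ b).tower_top) m k hk hkm c hc q hq hform

end Pool.Agent.PN
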