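import Pool.Agent.helper66.PN.Key

set_option autoImplicit false

open Polynomial

namespace Pool.Agent.PN

theorem pow_div_eq (x : Om) (r a c : ℕ) (h : r * a = c) : (x ^ r) ^ a = x ^ c := by
  rw [← pow_mul, h]

/-- The case of exponents not both divisible by three. -/
theorem step3 (n k : ℕ) (hk : 0 < k) (hkn : k < n) (hn : 4 ≤ n) (hf : Irreducible (tri n k))
    (h3 : ¬ (n % 3 = 0 ∧ k % 3 = 0)) (hn3 : n ≠ 3 * k) (hn32 : 2 * n ≠ 3 * k) : HasPenta n := by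
  have h2 := two_eq
  have hp : Nat.Prime 3 := by norm_num
  obtain ⟨x, hx⟩ := tri_root n k hk hkn
  have hA : x ^ n = x ^ k + 1 := by linear_combination hx - (x ^ k + 1) * h2
  by_cases c1 : n % 3 = k % 3
  · -- equal residues
    obtain ⟨u, hu⟩ : ∃ u, 3 * u = 2 * n + k := ⟨(2 * n + k) / 3, by omega⟩
    obtain ⟨v, hv⟩ : ∃ v, 3 * v = n + 2 * k := ⟨(n + 2 * k) / 3, by omega⟩
    apply goal_of n u v k (x ^ 3)
      (dg_two_equal n k 3 hp hk hkn hf x hx (Or.inl ⟨c1, by omega⟩)) <;> try omega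
    rw [pow_div_eq x 3 u _ hu, pow_div_eq x 3 v _ hv, pow_add, pow_add, pow_mul', pow_mul',
      pow_right_comm x 3 n, pow_right_comm x 3 k, hA]
    generalize x ^ k = B
    linear_combination (1 + 2 * B + 3 * B ^ 2 + 2 * B ^ 3) * h2
  · by_cases c2 : n % 3 = 0
    · obtain ⟨u, hu⟩ : ∃ u, 3 * u = 2 * n := ⟨(2 * n) / 3, by omega⟩
      obtain ⟨v, hv⟩ : ∃ v, 3 * v = n := ⟨n / 3, by omega⟩
      apply goal_of n u v k (x ^ 3)
        (dg_two_equal n k 3 hp hk hkn hf x hx (Or.inr (Or.inl ⟨c2, by omega⟩))) <;> try omega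
      rw [pow_div_eq x 3 u _ hu, pow_div_eq x 3 v _ hv, pow_mul',
        pow_right_comm x 3 n, pow_right_comm x 3 k, hA]
      generalize x ^ k = B
      linear_combination (2 + 3 * B + 2 * B ^ 2 + 1 * B ^ 3) * h2
    · by_cases c3 : k % 3 = 0
      · obtain ⟨u, hu⟩ : ∃ u, 3 * u = 2 * k := ⟨(2 * k) / 3, by omega⟩
        obtain ⟨v, hv⟩ : ∃ v, 3 * v = k := ⟨k / 3, by omega⟩
        apply goal_of n k u v (x ^ 3)
          (dg_two_equal n k 3 hp hk hkn hf x hx (Or.inr (Or.inr ⟨c3, by omega⟩))) <;> try omega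
        rw [pow_div_eq x 3 u _ hu, pow_div_eq x 3 v _ hv, pow_mul',
          pow_right_comm x 3 n, pow_right_comm x 3 k, hA]
        generalize x ^ k = B
        linear_combination (1 + 2 * B + 2 * B ^ 2 + 1 * B ^ 3) * h2
      · exact absurd (not_distinct3 n k hk hkn hn hf c1 c2 c3) (fun h => h)

theorem dg5 (n k : ℕ) (hk : 0 < k) (hkn : k < n) (hf : Irreducible (tri n k)) (x : Om)
    (hx : x ^ n + x ^ k + 1 = 0) (h5 : ¬ (n % 5 = 0 ∧ k % 5 = 0))
    (hbig : 4 * Nat.gcd n k < n) : dg (x ^ 5) = n := by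
  have hp : Nat.Prime 5 := by norm_num
  by_cases hnk : n % 5 = k % 5
  · exact dg_two_equal n k 5 hp hk hkn hf x hx (Or.inl ⟨hnk, by omega⟩)
  · rcases key n k 5 hk hkn x hx with h | ⟨z, hz, hzr, h⟩
    · rw [h, tri_dg n k hk hkn hf x hx]
    · have := small_of_f16 n k hk hkn hf x hx z hz hzr h hnk
      omega

theorem not_5k (k : ℕ) (hk : 0 < k) (hf : Irreducible (tri (5 * k) k)) : False := by
  have h2 := two_eq
  obtain ⟨z, hz, hz3, hz1⟩ := exists_omega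
  obtain ⟨t, ht⟩ := IsAlgClosed.exists_pow_nat_eq z hk
  have h : t ^ (5 * k) + t ^ k + 1 = 0 := by
    rw [mul_comm 5 k, pow_mul, ht]
    linear_combination (z ^ 3 - z ^ 2 + 1) * hz
  have h3 := tri_dg (5 * k) k hk (by omega) hf t h
  have h4 := dg_le_mul t k hk
  rw [ht] at h4
  have h5 := dg_omega z hz3
  nlinarith

theorem not_5k4 (k : ℕ) (hk : 0 < k) (hf : Irreducible (tri (5 * k) (4 * k))) : False := by
  have h2 := two_eq
  obtain ⟨z, hz, hz3, hz1⟩ := exists_omega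
  obtain ⟨t, ht⟩ := IsAlgClosed.exists_pow_nat_eq z hk
  have h : t ^ (5 * k) + t ^ (4 * k) + 1 = 0 := by
    rw [mul_comm 5 k, mul_comm 4 k, pow_mul, pow_mul, ht]
    linear_combination (z ^ 3 - z + 1) * hz
  have h3 := tri_dg (5 * k) (4 * k) (by omega) (by omega) hf t h
  have h4 := dg_le_mul t k hk
  rw [ht] at h4
  have h5 := dg_omega z hz3
  nlinarith

/-- The case of exponents not both divisible by five, outside the degenerate families. -/
theorem step5 (n k : ℕ) (hk : 0 < k) (hkn : k < n) (hf : Irreducible (tri n k))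
    (h5 : ¬ (n % 5 = 0 ∧ k % 5 = 0)) (hbig : 4 * Nat.gcd n k < n)
    (e1 : n ≠ 2 * k) (e2 : n ≠ 3 * k) (e3 : 2 * n ≠ 3 * k) (e4 : n ≠ 4 * k)
    (e5 : 3 * n ≠ 4 * k) : HasPenta n := by
  have h2 := two_eq
  obtain ⟨x, hx⟩ := tri_root n k hk hkn
  have hA : x ^ n = x ^ k + 1 := by linear_combination hx - (x ^ k + 1) * h2
  have hd := dg5 n k hk hkn hf x hx h5 hbig
  have hn5 : n % 5 < 5 := Nat.mod_lt _ (by norm_num)
  have hk5 : k % 5 < 5 := Nat.mod_lt _ (by norm_num)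
  by_cases c1 : n % 5 = k % 5
  · obtain ⟨u, hu⟩ : ∃ u, 5 * u = 4 * n + k := ⟨(4 * n + k) / 5, by omega⟩
    obtain ⟨v, hv⟩ : ∃ v, 5 * v = n + 4 * k := ⟨(n + 4 * k) / 5, by omega⟩
    apply goal_of n u v k (x ^ 5) hd <;> try omega
    rw [pow_div_eq x 5 u _ hu, pow_div_eq x 5 v _ hv, pow_add, pow_add, pow_mul', pow_mul',
      pow_right_comm x 5 n, pow_right_comm x 5 k, hA]
    generalize x ^ k = B
    linear_combination (1 + 3 * B + 7 * B ^ 2 + 8 * B ^ 3 + 5 * B ^ 4 + 2 * B ^ 5) * h2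
  by_cases c2 : n % 5 = 0
  · obtain ⟨v, hv⟩ : ∃ v, 5 * v = n := ⟨n / 5, by omega⟩
    have hkv : k ≠ v := by
      intro h
      subst h
      subst hv
      exact not_5k k hk hf
    have hkv4 : k ≠ 4 * v := by
      intro h
      subst h
      subst hv
      exact not_5k4 v (by omega) hf
    apply goal_of n (4 * v) v k (x ^ 5) hd <;> try omega
    have hu : 5 * (4 * v) = 4 * n := by omega
    rw [pow_div_eq x 5 (4 * v) _ hu, pow_div_eq x 5 v _ hv, pow_mul',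
      pow_right_comm x 5 n, pow_right_comm x 5 k, hA]
    generalize x ^ k = B
    linear_combination (2 + 5 * B + 8 * B ^ 2 + 7 * B ^ 3 + 3 * B ^ 4 + 1 * B ^ 5) * h2
  by_cases c3 : k % 5 = 0
  · obtain ⟨v, hv⟩ : ∃ v, 5 * v = k := ⟨k / 5, by omega⟩
    have hu : 5 * (4 * v) = 4 * k := by omega
    apply goal_of n k (4 * v) v (x ^ 5) hd <;> try omega
    rw [pow_div_eq x 5 (4 * v) _ hu, pow_div_eq x 5 v _ hv, pow_mul',
      pow_right_comm x 5 n, pow_right_comm x 5 k, hA]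
    generalize x ^ k = B
    linear_combination (1 + 3 * B + 5 * B ^ 2 + 5 * B ^ 3 + 3 * B ^ 4 + 1 * B ^ 5) * h2
  by_cases c4 : (n + k) % 5 = 0
  · obtain ⟨v, hv⟩ : ∃ v, 5 * v = n + k := ⟨(n + k) / 5, by omega⟩
    have hu : 5 * (2 * v) = 2 * n + 2 * k := by omega
    apply goal_of n k v (2 * v) (x ^ 5) hd <;> try omega
    rw [pow_div_eq x 5 (2 * v) _ hu, pow_div_eq x 5 v _ hv, pow_add, pow_add, pow_mul', pow_mul',
      pow_right_comm x 5 n, pow_right_comm x 5 k, hA]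
    generalize x ^ k = B
    linear_combination (1 + 3 * B + 6 * B ^ 2 + 6 * B ^ 3 + 3 * B ^ 4 + 1 * B ^ 5) * h2
  by_cases c5 : (2 * n + k) % 5 = 0
  · -- n = 2 k mod 5
    obtain ⟨u, hu⟩ : ∃ u, 5 * u = n + 3 * k := ⟨(n + 3 * k) / 5, by omega⟩
    obtain ⟨v, hv⟩ : ∃ v, 5 * v = 2 * n + k := ⟨(2 * n + k) / 5, by omega⟩
    apply goal_of n k u v (x ^ 5) hd <;> try omega
    rw [pow_div_eq x 5 u _ hu, pow_div_eq x 5 v _ hv, pow_add, pow_add, pow_mul', pow_mul',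
      pow_right_comm x 5 n, pow_right_comm x 5 k, hA]
    generalize x ^ k = B
    linear_combination (1 + 3 * B + 6 * B ^ 2 + 6 * B ^ 3 + 3 * B ^ 4 + 1 * B ^ 5) * h2
  · have c6 : (3 * n + k) % 5 = 0 := by
      have hcn : n % 5 = 1 ∨ n % 5 = 2 ∨ n % 5 = 3 ∨ n % 5 = 4 := by omega
      have hck : k % 5 = 1 ∨ k % 5 = 2 ∨ k % 5 = 3 ∨ k % 5 = 4 := by omega
      rcases hcn with h | h | h | h <;> rcases hck with h' | h' | h' | h' <;> omega
    obtain ⟨u, hu⟩ : ∃ u, 5 * u = 3 * n + k := ⟨(3 * n + k) / 5, by omega⟩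
    obtain ⟨v, hv⟩ : ∃ v, 5 * v = n + 2 * k := ⟨(n + 2 * k) / 5, by omega⟩
    apply goal_of n k u v (x ^ 5) hd <;> try omega
    rw [pow_div_eq x 5 u _ hu, pow_div_eq x 5 v _ hv, pow_add, pow_add, pow_mul', pow_mul',
      pow_right_comm x 5 n, pow_right_comm x 5 k, hA]
    generalize x ^ k = B
    linear_combination (1 + 3 * B + 7 * B ^ 2 + 7 * B ^ 3 + 3 * B ^ 4 + 1 * B ^ 5) * h2

end Pool.Agent.PN
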